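import Pool.Agent.H24.Lib.R_seed8.H845R2.DetDeriv

set_option autoImplicit false
set_option linter.unusedSectionVars false
open Finset MeasureTheory

namespace Pool.Agent.H845R2

variable {ι : Type*} [Fintype ι] [DecidableEq ι]

/-- A bounded vector field on `ℝ^ι` with bounded first and second derivatives,
`h j k = ∂_j v_k`, `t l j k = ∂_l ∂_j v_k`, and linear growth of `⟨x, v x⟩`. -/
structure Fld (ι : Type*) [Fintype ι] where
  v : ι → (ι → ℝ) → ℝ
  h : ι → ι → (ι → ℝ) → ℝ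
  t : ι → ι → ι → (ι → ℝ) → ℝ
  hv : ∀ k x, HasFDerivAt (v k) (∑ j, h j k x • ContinuousLinearMap.proj (R := ℝ) (φ := fun _ : ι => ℝ) j) x
  hh : ∀ j k x, HasFDerivAt (h j k) (∑ l, t l j k x • ContinuousLinearMap.proj (R := ℝ) (φ := fun _ : ι => ℝ) l) x
  symm : ∀ l j k x, t l j k x = t j l k x
  C : ℝ
  hC : 1 ≤ C
  bv : ∀ k x, |v k x| ≤ C
  bh : ∀ j k x, |h j k x| ≤ C
  bt : ∀ l j k x, |t l j k x| ≤ C
  c : ℝ
  hc : 0 < c
  growth : ∀ x, c * ‖x‖ - C ≤ ∑ k, x k * v k x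

namespace Fld

variable (f : Fld ι)

/-- the point `z = a + i b` -/
noncomputable def z (x : (ι → ℝ) × (ι → ℝ)) (k : ι) : ℂ := (x.1 k : ℂ) + Complex.I * (x.2 k : ℂ)

/-- the deformed field -/
noncomputable def V (s : ℝ) (x : (ι → ℝ) × (ι → ℝ)) (k : ι) : ℂ :=
  (1 - s : ℂ) * ((f.v k x.1 : ℂ) - Complex.I * (f.v k x.2 : ℂ)) + s * ((x.1 k : ℂ) - Complex.I * (x.2 k : ℂ))

/-- derivative of `V` in the parameter -/
noncomputable def U (x : (ι → ℝ) × (ι → ℝ)) (k : ι) : ℂ :=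
  ((x.1 k : ℂ) - Complex.I * (x.2 k : ℂ)) - ((f.v k x.1 : ℂ) - Complex.I * (f.v k x.2 : ℂ))

/-- derivative of `U` -/
noncomputable def DU (x : (ι → ℝ) × (ι → ℝ)) (j k : ι) : ℂ :=
  (if j = k then 2 else 0) - ((f.h j k x.1 : ℂ) + (f.h j k x.2 : ℂ))

/-- the matrix `D_j V_k` -/
noncomputable def M (s : ℝ) (x : (ι → ℝ) × (ι → ℝ)) (j k : ι) : ℂ :=
  (1 - s : ℂ) * ((f.h j k x.1 : ℂ) + (f.h j k x.2 : ℂ)) + s * (if j = k then 2 else 0)

/-- derivative of the rows of `M` -/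
noncomputable def T (s : ℝ) (x : (ι → ℝ) × (ι → ℝ)) (l j k : ι) : ℂ :=
  (1 - s : ℂ) * ((f.t l j k x.1 : ℂ) + Complex.I * (f.t l j k x.2 : ℂ))

noncomputable def Q (s : ℝ) (x : (ι → ℝ) × (ι → ℝ)) : ℂ := ∑ k, z x k * f.V s x k

/-- the integrand -/
noncomputable def F (s : ℝ) (x : (ι → ℝ) × (ι → ℝ)) : ℂ := Complex.exp (-f.Q s x) * dt (f.M s x)

/-- the vector field whose divergence is `∂_s F` -/
noncomputable def W (s : ℝ) (j : ι) (x : (ι → ℝ) × (ι → ℝ)) : ℂ :=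
  Complex.exp (-f.Q s x) * dt (Function.update (f.M s x) j (f.U x))

/-- `∂_s F` -/
noncomputable def F' (s : ℝ) (x : (ι → ℝ) × (ι → ℝ)) : ℂ :=
  Complex.exp (-f.Q s x) * (-(∑ k, z x k * f.U x k) * dt (f.M s x)
    + ∑ j, dt (Function.update (f.M s x) j (f.DU x j)))

lemma hasDerivAt_V (s : ℝ) (x : (ι → ℝ) × (ι → ℝ)) (k : ι) :
    HasDerivAt (fun s : ℝ => f.V s x k) (f.U x k) s := by
  have h1 : HasDerivAt (fun s : ℝ => (s : ℂ)) 1 s := Complex.ofRealCLM.hasDerivAt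
  have h2 := (((hasDerivAt_const s (1:ℂ)).sub h1).mul_const
    ((f.v k x.1 : ℂ) - Complex.I * (f.v k x.2 : ℂ))).add
    (h1.mul_const ((x.1 k : ℂ) - Complex.I * (x.2 k : ℂ)))
  unfold V U
  refine h2.congr_deriv ?_
  ring

lemma hasDerivAt_M (s : ℝ) (x : (ι → ℝ) × (ι → ℝ)) (j k : ι) :
    HasDerivAt (fun s : ℝ => f.M s x j k) (f.DU x j k) s := by
  have h1 : HasDerivAt (fun s : ℝ => (s : ℂ)) 1 s := Complex.ofRealCLM.hasDerivAt
  have h2 := (((hasDerivAt_const s (1:ℂ)).sub h1).mul_const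
    ((f.h j k x.1 : ℂ) + (f.h j k x.2 : ℂ))).add
    (h1.mul_const (if j = k then (2:ℂ) else 0))
  unfold M DU
  refine h2.congr_deriv ?_
  ring

lemma hasDerivAt_F (s : ℝ) (x : (ι → ℝ) × (ι → ℝ)) :
    HasDerivAt (fun s : ℝ => f.F s x) (f.F' s x) s := by
  have h1 : HasDerivAt (fun s : ℝ => f.Q s x) (∑ k, z x k * f.U x k) s := by
    unfold Q
    exact HasDerivAt.fun_sum fun k _ => (f.hasDerivAt_V s x k).const_mul (z x k)
  have h2 := h1.fun_neg.cexp
  have h3 := hasDerivAt_dt (fun s => f.M s x) (f.DU x) s (fun i k => f.hasDerivAt_M s x i k)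
  have h4 := h2.fun_mul h3
  unfold F F'
  refine h4.congr_deriv ?_
  ring

/-! ### derivatives in the space variable -/

abbrev PP (ι : Type*) := (ι → ℝ) × (ι → ℝ)

/-- coordinate functionals -/
noncomputable def ca (k : ι) : PP ι →L[ℝ] ℂ :=
  Complex.ofRealCLM.comp ((ContinuousLinearMap.proj (R := ℝ) (φ := fun _ : ι => ℝ) k).comp
    (ContinuousLinearMap.fst ℝ (ι → ℝ) (ι → ℝ)))

noncomputable def cb (k : ι) : PP ι →L[ℝ] ℂ :=
  Complex.ofRealCLM.comp ((ContinuousLinearMap.proj (R := ℝ) (φ := fun _ : ι => ℝ) k).comp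
    (ContinuousLinearMap.snd ℝ (ι → ℝ) (ι → ℝ)))

@[simp] lemma ca_apply (k : ι) (p : PP ι) : ca k p = (p.1 k : ℂ) := rfl
@[simp] lemma cb_apply (k : ι) (p : PP ι) : cb k p = (p.2 k : ℂ) := rfl

lemma hasFDerivAt_fst_coe (g : (ι → ℝ) → ℝ) (g' : ι → ℝ) (x : PP ι)
    (hg : HasFDerivAt g (∑ j, g' j • ContinuousLinearMap.proj (R := ℝ) (φ := fun _ : ι => ℝ) j) x.1) :
    HasFDerivAt (fun y : PP ι => (g y.1 : ℂ)) (∑ j, (g' j : ℂ) • ca j) x := by
  have h1 : HasFDerivAt (fun y : PP ι => g y.1) _ x := hg.comp x hasFDerivAt_fst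
  have h2 := Complex.ofRealCLM.hasFDerivAt.comp x h1
  refine h2.congr_fderiv ?_
  ext p <;> simp

lemma hasFDerivAt_snd_coe (g : (ι → ℝ) → ℝ) (g' : ι → ℝ) (x : PP ι)
    (hg : HasFDerivAt g (∑ j, g' j • ContinuousLinearMap.proj (R := ℝ) (φ := fun _ : ι => ℝ) j) x.2) :
    HasFDerivAt (fun y : PP ι => (g y.2 : ℂ)) (∑ j, (g' j : ℂ) • cb j) x := by
  have h1 : HasFDerivAt (fun y : PP ι => g y.2) _ x := hg.comp x hasFDerivAt_snd
  have h2 := Complex.ofRealCLM.hasFDerivAt.comp x h1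
  refine h2.congr_fderiv ?_
  ext p <;> simp

/-- the complex derivative `∂_{a_j} + i ∂_{b_j}` -/
noncomputable def Dd (L : PP ι →L[ℝ] ℂ) (j : ι) : ℂ :=
  L (Pi.single j 1, 0) + Complex.I * L (0, Pi.single j 1)

lemma Dd_add (L L' : PP ι →L[ℝ] ℂ) (j : ι) : Dd (L + L') j = Dd L j + Dd L' j := by
  simp [Dd]; ring

lemma Dd_sub (L L' : PP ι →L[ℝ] ℂ) (j : ι) : Dd (L - L') j = Dd L j - Dd L' j := by
  simp [Dd]; ring

lemma Dd_neg (L : PP ι →L[ℝ] ℂ) (j : ι) : Dd (-L) j = -Dd L j := by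
  simp [Dd]; ring

lemma Dd_smul (c : ℂ) (L : PP ι →L[ℝ] ℂ) (j : ι) : Dd (c • L) j = c * Dd L j := by
  simp [Dd]; ring

lemma Dd_sum {κ : Type*} (s : Finset κ) (L : κ → PP ι →L[ℝ] ℂ) (j : ι) :
    Dd (∑ k ∈ s, L k) j = ∑ k ∈ s, Dd (L k) j := by
  simp [Dd, Finset.mul_sum, Finset.sum_add_distrib]

lemma Dd_ca (k j : ι) : Dd (ca k) j = if j = k then 1 else 0 := by
  simp only [Dd, ca_apply, Pi.single_apply, Pi.zero_apply, Complex.ofReal_zero, mul_zero, add_zero]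
  by_cases h : j = k
  · simp [h]
  · simp [h, Ne.symm h]

lemma Dd_cb (k j : ι) : Dd (cb k) j = if j = k then Complex.I else 0 := by
  simp only [Dd, cb_apply, Pi.single_apply, Pi.zero_apply, Complex.ofReal_zero, zero_add]
  by_cases h : j = k
  · simp [h]
  · simp [h, Ne.symm h]

lemma Dd_sum_ca (c : ι → ℂ) (j : ι) : Dd (∑ k, c k • ca k) j = c j := by
  rw [Dd_sum]
  simp [Dd_smul, Dd_ca]

lemma Dd_sum_cb (c : ι → ℂ) (j : ι) : Dd (∑ k, c k • cb k) j = Complex.I * c j := by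
  rw [Dd_sum]
  simp [Dd_smul, Dd_cb, mul_comm]

/-- derivative of `z` -/
lemma hasFDerivAt_z (x : PP ι) (k : ι) : HasFDerivAt (fun y => z y k) (ca k + Complex.I • cb k) x := by
  have h1 : HasFDerivAt (fun y : PP ι => (y.1 k : ℂ)) (ca k) x := (ca k).hasFDerivAt
  have h2 : HasFDerivAt (fun y : PP ι => (y.2 k : ℂ)) (cb k) x := (cb k).hasFDerivAt
  exact h1.add (h2.const_mul Complex.I)

/-- Frechet derivative of `V` -/
noncomputable def dV (s : ℝ) (x : PP ι) (k : ι) : PP ι →L[ℝ] ℂ :=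
  (1 - s : ℂ) • ((∑ j, (f.h j k x.1 : ℂ) • ca j) - Complex.I • (∑ j, (f.h j k x.2 : ℂ) • cb j))
    + (s : ℂ) • (ca k - Complex.I • cb k)

lemma hasFDerivAt_V (s : ℝ) (x : PP ι) (k : ι) :
    HasFDerivAt (fun y => f.V s y k) (f.dV s x k) x := by
  have h1 : HasFDerivAt (fun y : PP ι => (y.1 k : ℂ)) (ca k) x := (ca k).hasFDerivAt
  have h2 : HasFDerivAt (fun y : PP ι => (y.2 k : ℂ)) (cb k) x := (cb k).hasFDerivAt
  have h3 := hasFDerivAt_fst_coe (f.v k) _ x (f.hv k x.1)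
  have h4 := hasFDerivAt_snd_coe (f.v k) _ x (f.hv k x.2)
  exact ((h3.sub (h4.const_mul Complex.I)).const_mul (1 - s : ℂ)).add
    ((h1.sub (h2.const_mul Complex.I)).const_mul (s : ℂ))

/-- Frechet derivative of `U` -/
noncomputable def dU (x : PP ι) (k : ι) : PP ι →L[ℝ] ℂ :=
  (ca k - Complex.I • cb k) -
  ((∑ j, (f.h j k x.1 : ℂ) • ca j) - Complex.I • (∑ j, (f.h j k x.2 : ℂ) • cb j))

lemma hasFDerivAt_U (x : PP ι) (k : ι) :
    HasFDerivAt (fun y => f.U y k) (f.dU x k) x := by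
  have h1 : HasFDerivAt (fun y : PP ι => (y.1 k : ℂ)) (ca k) x := (ca k).hasFDerivAt
  have h2 : HasFDerivAt (fun y : PP ι => (y.2 k : ℂ)) (cb k) x := (cb k).hasFDerivAt
  have h3 := hasFDerivAt_fst_coe (f.v k) _ x (f.hv k x.1)
  have h4 := hasFDerivAt_snd_coe (f.v k) _ x (f.hv k x.2)
  exact (h1.sub (h2.const_mul Complex.I)).sub (h3.sub (h4.const_mul Complex.I))

/-- Frechet derivative of `M` -/
noncomputable def dM (s : ℝ) (x : PP ι) (j k : ι) : PP ι →L[ℝ] ℂ :=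
  (1 - s : ℂ) • ((∑ l, (f.t l j k x.1 : ℂ) • ca l) + (∑ l, (f.t l j k x.2 : ℂ) • cb l))

lemma hasFDerivAt_M (s : ℝ) (x : PP ι) (j k : ι) :
    HasFDerivAt (fun y => f.M s y j k) (f.dM s x j k) x := by
  have h3 := hasFDerivAt_fst_coe (f.h j k) _ x (f.hh j k x.1)
  have h4 := hasFDerivAt_snd_coe (f.h j k) _ x (f.hh j k x.2)
  exact ((h3.add h4).const_mul (1 - s : ℂ)).add_const _

lemma Dd_z (j k : ι) : Dd (ca k + Complex.I • cb k) j = 0 := by
  rw [Dd_add, Dd_smul, Dd_ca, Dd_cb]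
  split_ifs
  · rw [Complex.I_mul_I]; ring
  · ring

lemma Dd_V (s : ℝ) (x : PP ι) (j k : ι) : Dd (f.dV s x k) j = f.M s x j k := by
  unfold dV M
  rw [Dd_add, Dd_smul, Dd_sub, Dd_smul, Dd_sum_ca, Dd_sum_cb, Dd_smul, Dd_sub, Dd_smul, Dd_ca, Dd_cb]
  have hI : Complex.I * Complex.I = -1 := Complex.I_mul_I
  split_ifs with h
  · linear_combination (-(1 - (s:ℂ)) * (f.h j k x.2 : ℂ) - s) * hI
  · linear_combination (-(1 - (s:ℂ)) * (f.h j k x.2 : ℂ)) * hI

lemma Dd_U (x : PP ι) (j k : ι) : Dd (f.dU x k) j = f.DU x j k := by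
  unfold dU DU
  rw [Dd_sub, Dd_sub, Dd_sub, Dd_smul, Dd_smul, Dd_sum_ca, Dd_sum_cb, Dd_ca, Dd_cb]
  have hI : Complex.I * Complex.I = -1 := Complex.I_mul_I
  split_ifs with h
  · linear_combination ((f.h j k x.2 : ℂ) - 1) * hI
  · linear_combination ((f.h j k x.2 : ℂ)) * hI

lemma Dd_M (s : ℝ) (x : PP ι) (l j k : ι) : Dd (f.dM s x j k) l = f.T s x l j k := by
  unfold dM T
  rw [Dd_smul, Dd_add, Dd_sum_ca, Dd_sum_cb]

lemma T_symm (s : ℝ) (x : PP ι) (l j : ι) : f.T s x l j = f.T s x j l := by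
  funext k
  unfold T
  rw [f.symm l j k, f.symm l j k]

/-- Frechet derivative of `Q` -/
noncomputable def dQ (s : ℝ) (x : PP ι) : PP ι →L[ℝ] ℂ :=
  ∑ k, (z x k • f.dV s x k + f.V s x k • (ca k + Complex.I • cb k))

lemma hasFDerivAt_Q (s : ℝ) (x : PP ι) : HasFDerivAt (fun y => f.Q s y) (f.dQ s x) x := by
  unfold Q dQ
  exact HasFDerivAt.fun_sum fun k _ => (hasFDerivAt_z x k).mul (f.hasFDerivAt_V s x k)

lemma Dd_Q (s : ℝ) (x : PP ι) (j : ι) : Dd (f.dQ s x) j = ∑ k, f.M s x j k * z x k := by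
  unfold dQ
  rw [Dd_sum]
  refine Finset.sum_congr rfl fun k _ => ?_
  rw [Dd_add, Dd_smul, Dd_smul, Dd_z, Dd_V]
  ring

/-- rows of the matrix in `W` -/
lemma hasFDerivAt_row (s : ℝ) (x : PP ι) (j i k : ι) :
    HasFDerivAt (fun y => Function.update (f.M s y) j (f.U y) i k)
      (if i = j then f.dU x k else f.dM s x i k) x := by
  by_cases h : i = j
  · subst h
    simp only [Function.update_self, if_true]
    exact f.hasFDerivAt_U x k
  · simp only [Function.update_of_ne h, if_neg h]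
    exact f.hasFDerivAt_M s x i k

/-- Frechet derivative of `W` -/
lemma exists_dW (s : ℝ) (j : ι) (x : PP ι) : ∃ L : PP ι →L[ℝ] ℂ,
    HasFDerivAt (fun y => f.W s j y) L x ∧
    ∀ p, L p = Complex.exp (-f.Q s x) * (-(f.dQ s x p) * dt (Function.update (f.M s x) j (f.U x))
      + ∑ i, dt (Function.update (Function.update (f.M s x) j (f.U x)) i
          (fun k => (if i = j then f.dU x k else f.dM s x i k) p))) := by
  obtain ⟨L, hL, hp⟩ := hasFDerivAt_dt (fun y => Function.update (f.M s y) j (f.U y))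
    (fun i k => if i = j then f.dU x k else f.dM s x i k) x (fun i k => f.hasFDerivAt_row s x j i k)
  have h1 := (f.hasFDerivAt_Q s x).fun_neg.cexp
  refine ⟨_, h1.mul hL, ?_⟩
  intro p
  simp only [ContinuousLinearMap.add_apply, ContinuousLinearMap.smul_apply, smul_eq_mul,
    ContinuousLinearMap.neg_apply, hp p]
  ring

/-- the divergence of `W` is the derivative of the integrand in the parameter -/
lemma div_W (s : ℝ) (x : PP ι) : ∑ j, Dd (fderiv ℝ (fun y => f.W s j y) x) j = f.F' s x := by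
  have h1 : ∀ j, Dd (fderiv ℝ (fun y => f.W s j y) x) j =
      Complex.exp (-f.Q s x) * (-((∑ k, f.M s x j k * z x k) * dt (Function.update (f.M s x) j (f.U x)))
      + ∑ i, dt (Function.update (Function.update (f.M s x) j (f.U x)) i
          (if i = j then f.DU x j else f.T s x j i))) := by
    intro j
    obtain ⟨L, hL, hp⟩ := f.exists_dW s j x
    rw [hL.fderiv]
    have hI : ∀ i, dt (Function.update (Function.update (f.M s x) j (f.U x)) i
          (if i = j then f.DU x j else f.T s x j i)) =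
        dt (Function.update (Function.update (f.M s x) j (f.U x)) i
          (fun k => (if i = j then f.dU x k else f.dM s x i k) (Pi.single j 1, 0))) +
        Complex.I * dt (Function.update (Function.update (f.M s x) j (f.U x)) i
          (fun k => (if i = j then f.dU x k else f.dM s x i k) (0, Pi.single j 1))) := by
      intro i
      have hrow : (if i = j then f.DU x j else f.T s x j i) =
          (fun k => (if i = j then f.dU x k else f.dM s x i k) (Pi.single j 1, 0)) +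
          Complex.I • (fun k => (if i = j then f.dU x k else f.dM s x i k) (0, Pi.single j 1)) := by
        funext k
        by_cases h : i = j
        · simp only [if_pos h, Pi.add_apply, Pi.smul_apply, smul_eq_mul]
          rw [← f.Dd_U x j k]
          rfl
        · simp only [if_neg h, Pi.add_apply, Pi.smul_apply, smul_eq_mul]
          rw [← f.Dd_M s x j i k]
          rfl
      rw [hrow, dt_update, Matrix.mulVec_add, Matrix.mulVec_smul, Pi.add_apply, Pi.smul_apply,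
        ← dt_update, ← dt_update, smul_eq_mul]
    simp_rw [hI]
    rw [Finset.sum_add_distrib, ← Finset.mul_sum, ← f.Dd_Q s x j]
    unfold Dd
    rw [hp, hp]
    ring
  simp_rw [h1]
  rw [← Finset.mul_sum, Finset.sum_add_distrib, Finset.sum_neg_distrib,
    sum_mul_dt_update, piola (f.M s x) (f.U x) (f.T s x) (f.DU x) (fun j i => f.T_symm s x j i)]
  unfold F'
  congr 1
  have : ∑ k, f.U x k * z x k = ∑ k, z x k * f.U x k :=
    Finset.sum_congr rfl fun k _ => mul_comm _ _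
  rw [this]
  ring

end Fld

end Pool.Agent.H845R2
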