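import Pool.Agent.H24.Lib.R_seed8.H845R2.Cx1

set_option autoImplicit false
set_option linter.unusedSectionVars false
open Finset MeasureTheory

namespace Pool.Agent.H845R2

variable {ι : Type*} [Fintype ι] [DecidableEq ι]

/-- polynomial times exponential decay is integrable -/
lemma integrable_poly_exp {E : Type*} [NormedAddCommGroup E] [NormedSpace ℝ E]
    [FiniteDimensional ℝ E] [MeasurableSpace E] [BorelSpace E] (μ : Measure E)
    [μ.IsAddHaarMeasure] (N : ℕ) (c : ℝ) (hc : 0 < c) :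
    Integrable (fun x : E => (1 + ‖x‖) ^ N * Real.exp (-(c * ‖x‖))) μ := by
  set d := Module.finrank ℝ E + 1 with hd
  have h1 : Integrable (fun x : E => (1 + ‖x‖) ^ (-(d : ℝ))) μ :=
    integrable_one_add_norm (by rw [hd]; push_cast; linarith)
  have h2 := h1.const_mul (((N + d).factorial : ℝ) / c ^ (N + d) * Real.exp c)
  refine h2.mono' (by fun_prop) (Filter.Eventually.of_forall fun x => ?_)
  have hx : 0 ≤ ‖x‖ := norm_nonneg x
  have h1x : 0 < 1 + ‖x‖ := by linarith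
  rw [Real.norm_of_nonneg (by positivity)]
  rw [Real.rpow_neg h1x.le, Real.rpow_natCast]
  have h3 := Real.pow_div_factorial_le_exp (c * (1 + ‖x‖)) (by positivity) (N + d)
  rw [div_le_iff₀ (by positivity)] at h3
  have h4 : Real.exp (c * (1 + ‖x‖)) = Real.exp c * Real.exp (c * ‖x‖) := by
    rw [← Real.exp_add]; congr 1; ring
  rw [h4, mul_pow] at h3
  have h5 : Real.exp (-(c * ‖x‖)) * Real.exp (c * ‖x‖) = 1 := by
    rw [← Real.exp_add]; simp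
  have hE : 0 < Real.exp (-(c * ‖x‖)) := Real.exp_pos _
  have hcN : 0 < c ^ (N + d) := by positivity
  rw [← div_eq_mul_inv, le_div_iff₀ (by positivity), div_mul_eq_mul_div, le_div_iff₀ hcN]
  calc (1 + ‖x‖) ^ N * Real.exp (-(c * ‖x‖)) * (1 + ‖x‖) ^ d * c ^ (N + d)
      = Real.exp (-(c * ‖x‖)) * (c ^ (N + d) * (1 + ‖x‖) ^ (N + d)) := by rw [pow_add (1 + ‖x‖)]; ring
    _ ≤ Real.exp (-(c * ‖x‖)) * (Real.exp c * Real.exp (c * ‖x‖) * (N + d).factorial) :=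
        mul_le_mul_of_nonneg_left h3 hE.le
    _ = (Real.exp (-(c * ‖x‖)) * Real.exp (c * ‖x‖)) * ((N + d).factorial * Real.exp c) := by ring
    _ = (N + d).factorial * Real.exp c := by rw [h5, one_mul]

namespace Fld

variable (f : Fld ι)

lemma abs_fst_le (x : PP ι) (k : ι) : |x.1 k| ≤ ‖x‖ :=
  (norm_le_pi_norm x.1 k).trans (norm_fst_le x)

lemma abs_snd_le (x : PP ι) (k : ι) : |x.2 k| ≤ ‖x‖ :=
  (norm_le_pi_norm x.2 k).trans (norm_snd_le x)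

lemma norm_add_I_le (a b A B : ℝ) (ha : |a| ≤ A) (hb : |b| ≤ B) :
    ‖(a : ℂ) + Complex.I * (b : ℂ)‖ ≤ A + B := by
  refine (norm_add_le _ _).trans (add_le_add ?_ ?_)
  · simpa using ha
  · simpa using hb

lemma norm_sub_I_le (a b A B : ℝ) (ha : |a| ≤ A) (hb : |b| ≤ B) :
    ‖(a : ℂ) - Complex.I * (b : ℂ)‖ ≤ A + B := by
  refine (norm_sub_le _ _).trans (add_le_add ?_ ?_)
  · simpa using ha
  · simpa using hb

lemma norm_conv_le (s : ℝ) (hs : s ∈ Set.Icc (0:ℝ) 1) (u w : ℂ) (A : ℝ) (hu : ‖u‖ ≤ A) (hw : ‖w‖ ≤ A) :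
    ‖(1 - s : ℂ) * u + s * w‖ ≤ A := by
  have h1 : ‖(1 - s : ℂ)‖ = 1 - s := by
    have : (1 - s : ℂ) = ((1 - s : ℝ) : ℂ) := by push_cast; ring
    rw [this, Complex.norm_real, Real.norm_of_nonneg (by linarith [hs.2])]
  have h2 : ‖(s : ℂ)‖ = s := by
    rw [Complex.norm_real, Real.norm_of_nonneg hs.1]
  calc ‖(1 - s : ℂ) * u + s * w‖ ≤ ‖(1 - s : ℂ) * u‖ + ‖(s : ℂ) * w‖ := norm_add_le _ _
    _ = (1 - s) * ‖u‖ + s * ‖w‖ := by rw [norm_mul, norm_mul, h1, h2]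
    _ ≤ (1 - s) * A + s * A := add_le_add (mul_le_mul_of_nonneg_left hu (by linarith [hs.2]))
        (mul_le_mul_of_nonneg_left hw hs.1)
    _ = A := by ring

lemma norm_z_le (x : PP ι) (k : ι) : ‖z x k‖ ≤ 2 * (1 + ‖x‖) := by
  have := norm_add_I_le (x.1 k) (x.2 k) _ _ (abs_fst_le x k) (abs_snd_le x k)
  unfold z
  linarith [norm_nonneg x]

lemma norm_V_le (s : ℝ) (hs : s ∈ Set.Icc (0:ℝ) 1) (x : PP ι) (k : ι) :
    ‖f.V s x k‖ ≤ 2 * f.C * (1 + ‖x‖) := by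
  have hC := f.hC
  have hx := norm_nonneg x
  have h1 := norm_sub_I_le _ _ _ _ (f.bv k x.1) (f.bv k x.2)
  have h2 := norm_sub_I_le (x.1 k) (x.2 k) _ _ (abs_fst_le x k) (abs_snd_le x k)
  unfold V
  refine norm_conv_le s hs _ _ _ (h1.trans ?_) (h2.trans ?_) <;> nlinarith

/-- the common bound -/
noncomputable def K : ℝ := 4 * f.C * (Fintype.card ι + 1)

lemma K_ge : 4 * f.C ≤ f.K := by
  unfold K
  have := f.hC
  have h2 : (0:ℝ) ≤ Fintype.card ι := by positivity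
  nlinarith

lemma norm_U_le (x : PP ι) (k : ι) : ‖f.U x k‖ ≤ f.K * (1 + ‖x‖) := by
  have hC := f.hC
  have hx := norm_nonneg x
  have hK := f.K_ge
  have h1 := norm_sub_I_le _ _ _ _ (f.bv k x.1) (f.bv k x.2)
  have h2 := norm_sub_I_le (x.1 k) (x.2 k) _ _ (abs_fst_le x k) (abs_snd_le x k)
  unfold U
  refine (norm_sub_le _ _).trans ((add_le_add h2 h1).trans ?_)
  nlinarith

lemma norm_ite_le (j k : ι) : ‖(if j = k then (2:ℂ) else 0)‖ ≤ 2 := by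
  split_ifs <;> simp

lemma norm_hh_le (x : PP ι) (j k : ι) : ‖(f.h j k x.1 : ℂ) + (f.h j k x.2 : ℂ)‖ ≤ 2 * f.C := by
  refine (norm_add_le _ _).trans ?_
  have h1 := f.bh j k x.1
  have h2 := f.bh j k x.2
  simp only [Complex.norm_real, Real.norm_eq_abs]
  linarith

lemma norm_DU_le (x : PP ι) (j k : ι) : ‖f.DU x j k‖ ≤ f.K * (1 + ‖x‖) := by
  have hC := f.hC
  have hx := norm_nonneg x
  have hK := f.K_ge
  unfold DU
  refine (norm_sub_le _ _).trans ((add_le_add (norm_ite_le j k) (f.norm_hh_le x j k)).trans ?_)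
  nlinarith

lemma norm_M_le (s : ℝ) (hs : s ∈ Set.Icc (0:ℝ) 1) (x : PP ι) (j k : ι) :
    ‖f.M s x j k‖ ≤ f.K * (1 + ‖x‖) := by
  have hC := f.hC
  have hx := norm_nonneg x
  have hK := f.K_ge
  unfold M
  refine norm_conv_le s hs _ _ _ ((f.norm_hh_le x j k).trans ?_) ((norm_ite_le j k).trans ?_) <;>
    nlinarith

lemma norm_sum_ca_le (c : ι → ℝ) (A : ℝ) (hc : ∀ j, |c j| ≤ A) (p : PP ι) (hp : ‖p‖ ≤ 1) :
    ‖(∑ j, (c j : ℂ) • ca j : PP ι →L[ℝ] ℂ) p‖ ≤ Fintype.card ι * A := by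
  rw [_root_.sum_apply]
  refine (norm_sum_le _ _).trans ?_
  refine (Finset.sum_le_card_nsmul _ _ A fun j _ => ?_).trans (by simp)
  simp only [smul_apply, ca_apply, smul_eq_mul, norm_mul, Complex.norm_real, Real.norm_eq_abs]
  have h1 := (abs_fst_le p j).trans hp
  have h2 := hc j
  nlinarith [abs_nonneg (p.1 j), abs_nonneg (c j)]

lemma norm_sum_cb_le (c : ι → ℝ) (A : ℝ) (hc : ∀ j, |c j| ≤ A) (p : PP ι) (hp : ‖p‖ ≤ 1) :
    ‖(∑ j, (c j : ℂ) • cb j : PP ι →L[ℝ] ℂ) p‖ ≤ Fintype.card ι * A := by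
  rw [_root_.sum_apply]
  refine (norm_sum_le _ _).trans ?_
  refine (Finset.sum_le_card_nsmul _ _ A fun j _ => ?_).trans (by simp)
  simp only [smul_apply, cb_apply, smul_eq_mul, norm_mul, Complex.norm_real, Real.norm_eq_abs]
  have h1 := (abs_snd_le p j).trans hp
  have h2 := hc j
  nlinarith [abs_nonneg (p.2 j), abs_nonneg (c j)]

lemma norm_dM_le (s : ℝ) (hs : s ∈ Set.Icc (0:ℝ) 1) (x : PP ι) (j k : ι) (p : PP ι) (hp : ‖p‖ ≤ 1) :
    ‖f.dM s x j k p‖ ≤ f.K * (1 + ‖x‖) := by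
  have hC := f.hC
  have hx := norm_nonneg x
  have hN : (0:ℝ) ≤ Fintype.card ι := by positivity
  have h1 := norm_sum_ca_le (fun l => f.t l j k x.1) f.C (fun l => f.bt l j k x.1) p hp
  have h2 := norm_sum_cb_le (fun l => f.t l j k x.2) f.C (fun l => f.bt l j k x.2) p hp
  unfold dM
  rw [smul_apply, add_apply, smul_eq_mul]
  have h3 := norm_conv_le s hs ((∑ l, (f.t l j k x.1 : ℂ) • ca l : PP ι →L[ℝ] ℂ) p +
    (∑ l, (f.t l j k x.2 : ℂ) • cb l : PP ι →L[ℝ] ℂ) p) 0 (2 * (Fintype.card ι * f.C))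
    ((norm_add_le _ _).trans (by linarith)) (by simp; positivity)
  rw [mul_zero, add_zero] at h3
  refine h3.trans ?_
  unfold K
  nlinarith [mul_nonneg hN hx, mul_nonneg (mul_nonneg hN hx) (by linarith : (0:ℝ) ≤ f.C),
    mul_nonneg hx (by linarith : (0:ℝ) ≤ f.C), mul_nonneg hN (by linarith : (0:ℝ) ≤ f.C)]

lemma norm_cab_le (k : ι) (p : PP ι) (hp : ‖p‖ ≤ 1) : ‖(ca k - Complex.I • cb k : PP ι →L[ℝ] ℂ) p‖ ≤ 2 := by
  rw [sub_apply, smul_apply, ca_apply, cb_apply, smul_eq_mul]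
  have := norm_sub_I_le (p.1 k) (p.2 k) 1 1 ((abs_fst_le p k).trans hp) ((abs_snd_le p k).trans hp)
  linarith

lemma norm_cab_le' (k : ι) (p : PP ι) (hp : ‖p‖ ≤ 1) : ‖(ca k + Complex.I • cb k : PP ι →L[ℝ] ℂ) p‖ ≤ 2 := by
  rw [add_apply, smul_apply, ca_apply, cb_apply, smul_eq_mul]
  have := norm_add_I_le (p.1 k) (p.2 k) 1 1 ((abs_fst_le p k).trans hp) ((abs_snd_le p k).trans hp)
  linarith

lemma norm_hsum_le (x : PP ι) (k : ι) (p : PP ι) (hp : ‖p‖ ≤ 1) :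
    ‖((∑ j, (f.h j k x.1 : ℂ) • ca j) - Complex.I • (∑ j, (f.h j k x.2 : ℂ) • cb j) : PP ι →L[ℝ] ℂ) p‖
      ≤ 2 * (Fintype.card ι * f.C) := by
  have h1 := norm_sum_ca_le (fun j => f.h j k x.1) f.C (fun j => f.bh j k x.1) p hp
  have h2 := norm_sum_cb_le (fun j => f.h j k x.2) f.C (fun j => f.bh j k x.2) p hp
  rw [sub_apply, smul_apply, smul_eq_mul]
  refine (norm_sub_le _ _).trans ?_
  rw [norm_mul, Complex.norm_I, one_mul]
  linarith

lemma norm_dU_le (x : PP ι) (k : ι) (p : PP ι) (hp : ‖p‖ ≤ 1) :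
    ‖f.dU x k p‖ ≤ f.K * (1 + ‖x‖) := by
  have hC := f.hC
  have hx := norm_nonneg x
  have hN : (0:ℝ) ≤ Fintype.card ι := by positivity
  have h1 := f.norm_hsum_le x k p hp
  have h2 := norm_cab_le k p hp
  unfold dU
  rw [sub_apply]
  refine (norm_sub_le _ _).trans ((add_le_add h2 h1).trans ?_)
  unfold K
  nlinarith [mul_nonneg hN hx, mul_nonneg (mul_nonneg hN hx) (by linarith : (0:ℝ) ≤ f.C),
    mul_nonneg hx (by linarith : (0:ℝ) ≤ f.C), mul_nonneg hN (by linarith : (0:ℝ) ≤ f.C)]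

lemma norm_dV_le (s : ℝ) (hs : s ∈ Set.Icc (0:ℝ) 1) (x : PP ι) (k : ι) (p : PP ι) (hp : ‖p‖ ≤ 1) :
    ‖f.dV s x k p‖ ≤ f.K := by
  have hC := f.hC
  have hN : (0:ℝ) ≤ Fintype.card ι := by positivity
  have h1 := f.norm_hsum_le x k p hp
  have h2 := norm_cab_le k p hp
  unfold dV
  rw [add_apply, smul_apply, smul_apply, smul_eq_mul, smul_eq_mul]
  refine norm_conv_le s hs _ _ _ (h1.trans ?_) (h2.trans ?_) <;> unfold K <;>
  nlinarith [mul_nonneg hN (by linarith : (0:ℝ) ≤ f.C)]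

lemma norm_dQ_le (s : ℝ) (hs : s ∈ Set.Icc (0:ℝ) 1) (x : PP ι) (p : PP ι) (hp : ‖p‖ ≤ 1) :
    ‖f.dQ s x p‖ ≤ Fintype.card ι * (4 * f.K * (1 + ‖x‖)) := by
  have hC := f.hC
  have hx := norm_nonneg x
  have hK := f.K_ge
  unfold dQ
  rw [_root_.sum_apply]
  refine (norm_sum_le _ _).trans ?_
  refine (Finset.sum_le_card_nsmul _ _ (4 * f.K * (1 + ‖x‖)) fun k _ => ?_).trans (by simp)
  rw [add_apply, smul_apply, smul_apply, smul_eq_mul, smul_eq_mul]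
  have h1 := norm_z_le x k
  have h2 := f.norm_dV_le s hs x k p hp
  have h3 := f.norm_V_le s hs x k
  have h4 := norm_cab_le' k p hp
  refine (norm_add_le _ _).trans ?_
  rw [norm_mul, norm_mul]
  have h5 : ‖z x k‖ * ‖f.dV s x k p‖ ≤ 2 * (1 + ‖x‖) * f.K :=
    mul_le_mul h1 h2 (norm_nonneg _) (by positivity)
  have h6 : ‖f.V s x k‖ * ‖(ca k + Complex.I • cb k : PP ι →L[ℝ] ℂ) p‖ ≤ 2 * f.C * (1 + ‖x‖) * 2 :=
    mul_le_mul h3 h4 (norm_nonneg _) (by positivity)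
  nlinarith

/-- real part of the exponent -/
lemma re_Q (s : ℝ) (x : PP ι) : (f.Q s x).re =
    (1 - s) * ((∑ k, x.1 k * f.v k x.1) + ∑ k, x.2 k * f.v k x.2)
      + s * ((∑ k, x.1 k ^ 2) + ∑ k, x.2 k ^ 2) := by
  unfold Q
  rw [Complex.re_sum]
  rw [← Finset.sum_add_distrib, ← Finset.sum_add_distrib, Finset.mul_sum, Finset.mul_sum,
    ← Finset.sum_add_distrib]
  refine Finset.sum_congr rfl fun k _ => ?_
  unfold z V
  simp [Complex.mul_re, Complex.add_re, Complex.sub_re, Complex.mul_im, Complex.add_im, Complex.sub_im]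
  ring

lemma sq_lower (a : ι → ℝ) (c : ℝ) : c * ‖a‖ - c ^ 2 ≤ ∑ k, a k ^ 2 := by
  have h1 : ‖a‖ ^ 2 ≤ ∑ k, a k ^ 2 := by
    rcases isEmpty_or_nonempty ι with h | h
    · have : a = 0 := Subsingleton.elim _ _
      subst this
      simp
    · obtain ⟨k, hk⟩ := (Finite.exists_max (fun k => ‖a k‖))
      have h2 : ‖a‖ = ‖a k‖ := by
        apply le_antisymm
        · exact (pi_norm_le_iff_of_nonneg (norm_nonneg _)).2 hk
        · exact norm_le_pi_norm a k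
      rw [h2, Real.norm_eq_abs, sq_abs]
      exact Finset.single_le_sum (f := fun k => a k ^ 2) (fun i _ => sq_nonneg _) (Finset.mem_univ k)
  nlinarith [sq_nonneg (‖a‖ - c), sq_nonneg (‖a‖), sq_nonneg c]

/-- the constant in the lower bound of the exponent -/
noncomputable def C2 : ℝ := 2 * (f.C + f.c ^ 2)

lemma re_Q_ge (s : ℝ) (hs : s ∈ Set.Icc (0:ℝ) 1) (x : PP ι) : f.c * ‖x‖ - f.C2 ≤ (f.Q s x).re := by
  rw [re_Q]
  have hC := f.hC
  have hc := f.hc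
  have g1 := f.growth x.1
  have g2 := f.growth x.2
  have q1 := sq_lower x.1 f.c
  have q2 := sq_lower x.2 f.c
  have hn : ‖x‖ ≤ ‖x.1‖ + ‖x.2‖ := by
    rw [Prod.norm_def]
    exact max_le (by linarith [norm_nonneg x.2]) (by linarith [norm_nonneg x.1])
  have hcx : f.c * ‖x‖ ≤ f.c * ‖x.1‖ + f.c * ‖x.2‖ := by
    rw [← mul_add]; exact mul_le_mul_of_nonneg_left hn hc.le
  have e1 : f.c * ‖x‖ - f.C2 ≤ (∑ k, x.1 k * f.v k x.1) + ∑ k, x.2 k * f.v k x.2 := by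
    unfold C2
    nlinarith [sq_nonneg f.c]
  have e2 : f.c * ‖x‖ - f.C2 ≤ (∑ k, x.1 k ^ 2) + ∑ k, x.2 k ^ 2 := by
    unfold C2
    nlinarith [sq_nonneg f.c]
  have h1 := mul_le_mul_of_nonneg_left e1 (by linarith [hs.2] : 0 ≤ 1 - s)
  have h2 := mul_le_mul_of_nonneg_left e2 hs.1
  linarith

lemma norm_exp_Q_le (s : ℝ) (hs : s ∈ Set.Icc (0:ℝ) 1) (x : PP ι) :
    ‖Complex.exp (-f.Q s x)‖ ≤ Real.exp f.C2 * Real.exp (-(f.c * ‖x‖)) := by
  rw [Complex.norm_exp, ← Real.exp_add]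
  apply Real.exp_le_exp.2
  rw [Complex.neg_re]
  linarith [f.re_Q_ge s hs x]

end Fld

end Pool.Agent.H845R2
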