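import Pool.Agent.H24.Lib.R_seed8.H845R2.Cx2

set_option autoImplicit false
set_option linter.unusedSectionVars false
open Finset MeasureTheory

namespace Pool.Agent.H845R2

variable {ι : Type*} [Fintype ι] [DecidableEq ι]

theorem isHaarPP (ι : Type*) [Fintype ι] :
    ((volume : Measure (ι → ℝ)).prod (volume : Measure (ι → ℝ))).IsAddHaarMeasure :=
  Measure.prod.instIsAddHaarMeasure _ _

namespace Fld

variable (f : Fld ι)

/-- bound for all determinants in sight -/
noncomputable def DB (x : PP ι) : ℝ := (Fintype.card ι).factorial * (f.K * (1 + ‖x‖)) ^ Fintype.card ι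

lemma K_pos : 0 < f.K := by linarith [f.K_ge, f.hC]

lemma DB_nonneg (x : PP ι) : 0 ≤ f.DB x := by
  unfold DB
  have := f.K_pos
  positivity

lemma norm_det_M_le (s : ℝ) (hs : s ∈ Set.Icc (0:ℝ) 1) (x : PP ι) : ‖dt (f.M s x)‖ ≤ f.DB x :=
  norm_dt_le _ _ fun i k => f.norm_M_le s hs x i k

lemma norm_row_le (s : ℝ) (hs : s ∈ Set.Icc (0:ℝ) 1) (x : PP ι) (j i k : ι) :
    ‖Function.update (f.M s x) j (f.U x) i k‖ ≤ f.K * (1 + ‖x‖) := by
  by_cases h : i = j
  · subst h
    rw [Function.update_self]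
    exact f.norm_U_le x k
  · rw [Function.update_of_ne h]
    exact f.norm_M_le s hs x i k

lemma norm_det_W_le (s : ℝ) (hs : s ∈ Set.Icc (0:ℝ) 1) (x : PP ι) (j : ι) :
    ‖dt (Function.update (f.M s x) j (f.U x))‖ ≤ f.DB x :=
  norm_dt_le _ _ fun i k => f.norm_row_le s hs x j i k

lemma norm_det_DU_le (s : ℝ) (hs : s ∈ Set.Icc (0:ℝ) 1) (x : PP ι) (j : ι) :
    ‖dt (Function.update (f.M s x) j (f.DU x j))‖ ≤ f.DB x := by
  refine norm_dt_le _ _ fun i k => ?_
  by_cases h : i = j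
  · subst h
    rw [Function.update_self]
    exact f.norm_DU_le x i k
  · rw [Function.update_of_ne h]
    exact f.norm_M_le s hs x i k

lemma norm_det_dW_le (s : ℝ) (hs : s ∈ Set.Icc (0:ℝ) 1) (x : PP ι) (j i : ι) (p : PP ι) (hp : ‖p‖ ≤ 1) :
    ‖dt (Function.update (Function.update (f.M s x) j (f.U x)) i
          (fun k => (if i = j then f.dU x k else f.dM s x i k) p))‖ ≤ f.DB x := by
  refine norm_dt_le _ _ fun r k => ?_
  by_cases h : r = i
  · subst h
    rw [Function.update_self]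
    split_ifs
    · exact f.norm_dU_le x k p hp
    · exact f.norm_dM_le s hs x r k p hp
  · rw [Function.update_of_ne h]
    exact f.norm_row_le s hs x j r k

/-- the common integrable bound -/
noncomputable def G (x : PP ι) : ℝ := (1 + ‖x‖) ^ (Fintype.card ι + 2) * Real.exp (-(f.c * ‖x‖))

noncomputable def B : ℝ := Real.exp f.C2 * ((Fintype.card ι).factorial * f.K ^ Fintype.card ι) *
  (1 + Fintype.card ι * (8 * f.K))

lemma G_nonneg (x : PP ι) : 0 ≤ f.G x := by unfold G; positivity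

lemma integrable_G : Integrable f.G ((volume : Measure (ι → ℝ)).prod volume) :=
  haveI := isHaarPP ι
  integrable_poly_exp _ _ _ f.hc

lemma bound_aux (x : PP ι) (E D : ℝ) (hE0 : 0 ≤ E) (hE : E ≤ Real.exp f.C2 * Real.exp (-(f.c * ‖x‖)))
    (_hD0 : 0 ≤ D)
    (hD : D ≤ (1 + Fintype.card ι * (8 * f.K)) * (1 + ‖x‖) ^ 2 * f.DB x) :
    E * D ≤ f.B * f.G x := by
  have hx := norm_nonneg x
  have hK := f.K_pos
  have hDB := f.DB_nonneg x
  calc E * D ≤ (Real.exp f.C2 * Real.exp (-(f.c * ‖x‖))) *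
      ((1 + Fintype.card ι * (8 * f.K)) * (1 + ‖x‖) ^ 2 * f.DB x) :=
        mul_le_mul hE hD _hD0 (by positivity)
    _ = f.B * f.G x := by
        unfold B G DB
        rw [mul_pow, pow_add]
        ring

lemma norm_F_le (s : ℝ) (hs : s ∈ Set.Icc (0:ℝ) 1) (x : PP ι) : ‖f.F s x‖ ≤ f.B * f.G x := by
  have hx := norm_nonneg x
  have hK := f.K_pos
  have hDB := f.DB_nonneg x
  unfold F
  rw [norm_mul]
  refine f.bound_aux x _ _ (norm_nonneg _) (f.norm_exp_Q_le s hs x) (norm_nonneg _)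
    ((f.norm_det_M_le s hs x).trans ?_)
  have h1 : 1 ≤ (1 + Fintype.card ι * (8 * f.K)) * (1 + ‖x‖) ^ 2 := by
    have h2 : (1:ℝ) ≤ (1 + ‖x‖) ^ 2 := by nlinarith
    have h3 : (1:ℝ) ≤ 1 + Fintype.card ι * (8 * f.K) := by
      have : (0:ℝ) ≤ Fintype.card ι * (8 * f.K) := by positivity
      linarith
    nlinarith
  nlinarith

lemma norm_W_le (s : ℝ) (hs : s ∈ Set.Icc (0:ℝ) 1) (j : ι) (x : PP ι) : ‖f.W s j x‖ ≤ f.B * f.G x := by
  have hx := norm_nonneg x
  have hK := f.K_pos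
  have hDB := f.DB_nonneg x
  unfold W
  rw [norm_mul]
  refine f.bound_aux x _ _ (norm_nonneg _) (f.norm_exp_Q_le s hs x) (norm_nonneg _)
    ((f.norm_det_W_le s hs x j).trans ?_)
  have h1 : 1 ≤ (1 + Fintype.card ι * (8 * f.K)) * (1 + ‖x‖) ^ 2 := by
    have h2 : (1:ℝ) ≤ (1 + ‖x‖) ^ 2 := by nlinarith
    have h3 : (1:ℝ) ≤ 1 + Fintype.card ι * (8 * f.K) := by
      have : (0:ℝ) ≤ Fintype.card ι * (8 * f.K) := by positivity
      linarith
    nlinarith
  nlinarith

lemma norm_zU_le (x : PP ι) : ‖∑ k, z x k * f.U x k‖ ≤ Fintype.card ι * (2 * f.K * (1 + ‖x‖) ^ 2) := by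
  have hx := norm_nonneg x
  have hK := f.K_pos
  refine (norm_sum_le _ _).trans ?_
  refine (Finset.sum_le_card_nsmul _ _ (2 * f.K * (1 + ‖x‖) ^ 2) fun k _ => ?_).trans (by simp)
  rw [norm_mul]
  calc ‖z x k‖ * ‖f.U x k‖ ≤ (2 * (1 + ‖x‖)) * (f.K * (1 + ‖x‖)) :=
        mul_le_mul (norm_z_le x k) (f.norm_U_le x k) (norm_nonneg _) (by positivity)
    _ = _ := by ring

lemma norm_F'_le (s : ℝ) (hs : s ∈ Set.Icc (0:ℝ) 1) (x : PP ι) : ‖f.F' s x‖ ≤ f.B * f.G x := by
  have hx := norm_nonneg x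
  have hK := f.K_pos
  have hDB := f.DB_nonneg x
  have hN : (0:ℝ) ≤ Fintype.card ι := by positivity
  unfold F'
  rw [norm_mul]
  refine f.bound_aux x _ _ (norm_nonneg _) (f.norm_exp_Q_le s hs x) (norm_nonneg _) ?_
  refine (norm_add_le _ _).trans ?_
  rw [norm_mul, norm_neg]
  have h1 : ‖∑ k, z x k * f.U x k‖ * ‖dt (f.M s x)‖ ≤
      (Fintype.card ι * (2 * f.K * (1 + ‖x‖) ^ 2)) * f.DB x :=
    mul_le_mul (f.norm_zU_le x) (f.norm_det_M_le s hs x) (norm_nonneg _) (by positivity)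
  have h2 : ‖∑ j, dt (Function.update (f.M s x) j (f.DU x j))‖ ≤ Fintype.card ι * f.DB x := by
    refine (norm_sum_le _ _).trans ?_
    exact (Finset.sum_le_card_nsmul _ _ (f.DB x) fun j _ => f.norm_det_DU_le s hs x j).trans (by simp)
  have hK1 : 4 ≤ f.K := by linarith [f.K_ge, f.hC]
  have h3 : (1:ℝ) ≤ (1 + ‖x‖) ^ 2 := by nlinarith
  have h4 : (Fintype.card ι : ℝ) ≤ Fintype.card ι * f.K * (1 + ‖x‖) ^ 2 := by
    have : (1:ℝ) ≤ f.K * (1 + ‖x‖) ^ 2 := by nlinarith
    calc (Fintype.card ι : ℝ) = Fintype.card ι * 1 := by ring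
      _ ≤ Fintype.card ι * (f.K * (1 + ‖x‖) ^ 2) := mul_le_mul_of_nonneg_left this hN
      _ = _ := by ring
  have h5 := mul_le_mul_of_nonneg_right h4 hDB
  have h6 : 0 ≤ Fintype.card ι * f.K * (1 + ‖x‖) ^ 2 * f.DB x := by positivity
  have h7 : 0 ≤ (1 + ‖x‖) ^ 2 * f.DB x := by positivity
  nlinarith

lemma norm_dW_le (s : ℝ) (hs : s ∈ Set.Icc (0:ℝ) 1) (j : ι) (x : PP ι) (p : PP ι) (hp : ‖p‖ ≤ 1) :
    ‖fderiv ℝ (fun y => f.W s j y) x p‖ ≤ f.B * f.G x := by
  have hx := norm_nonneg x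
  have hK := f.K_pos
  have hDB := f.DB_nonneg x
  have hN : (0:ℝ) ≤ Fintype.card ι := by positivity
  obtain ⟨L, hL, hLp⟩ := f.exists_dW s j x
  rw [hL.fderiv, hLp p, norm_mul]
  refine f.bound_aux x _ _ (norm_nonneg _) (f.norm_exp_Q_le s hs x) (norm_nonneg _) ?_
  refine (norm_add_le _ _).trans ?_
  rw [norm_mul, norm_neg]
  have h1 : ‖f.dQ s x p‖ * ‖dt (Function.update (f.M s x) j (f.U x))‖ ≤
      (Fintype.card ι * (4 * f.K * (1 + ‖x‖))) * f.DB x :=
    mul_le_mul (f.norm_dQ_le s hs x p hp) (f.norm_det_W_le s hs x j) (norm_nonneg _) (by positivity)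
  have h2 : ‖∑ i, dt (Function.update (Function.update (f.M s x) j (f.U x)) i
          (fun k => (if i = j then f.dU x k else f.dM s x i k) p))‖ ≤ Fintype.card ι * f.DB x := by
    refine (norm_sum_le _ _).trans ?_
    exact (Finset.sum_le_card_nsmul _ _ (f.DB x) fun i _ => f.norm_det_dW_le s hs x j i p hp).trans
      (by simp)
  have hK1 : 4 ≤ f.K := by linarith [f.K_ge, f.hC]
  have h3 : (1:ℝ) ≤ (1 + ‖x‖) ^ 2 := by nlinarith
  have h3' : (1 + ‖x‖) ≤ (1 + ‖x‖) ^ 2 := by nlinarith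
  have h4 : (Fintype.card ι : ℝ) ≤ Fintype.card ι * f.K * (1 + ‖x‖) ^ 2 := by
    have : (1:ℝ) ≤ f.K * (1 + ‖x‖) ^ 2 := by nlinarith
    calc (Fintype.card ι : ℝ) = Fintype.card ι * 1 := by ring
      _ ≤ Fintype.card ι * (f.K * (1 + ‖x‖) ^ 2) := mul_le_mul_of_nonneg_left this hN
      _ = _ := by ring
  have h5 := mul_le_mul_of_nonneg_right h4 hDB
  have h8 : Fintype.card ι * (4 * f.K * (1 + ‖x‖)) ≤ Fintype.card ι * (4 * f.K * (1 + ‖x‖) ^ 2) :=
    mul_le_mul_of_nonneg_left (mul_le_mul_of_nonneg_left h3' (by positivity)) hN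
  have h9 := mul_le_mul_of_nonneg_right h8 hDB
  have h6 : 0 ≤ Fintype.card ι * f.K * (1 + ‖x‖) ^ 2 * f.DB x := by positivity
  have h7 : 0 ≤ (1 + ‖x‖) ^ 2 * f.DB x := by positivity
  nlinarith

/-! ### continuity in `x` for measurability -/

lemma continuous_v (k : ι) : Continuous (f.v k) :=
  continuous_iff_continuousAt.2 fun x => (f.hv k x).continuousAt

lemma continuous_h (j k : ι) : Continuous (f.h j k) :=
  continuous_iff_continuousAt.2 fun x => (f.hh j k x).continuousAt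

lemma continuous_F (s : ℝ) : Continuous (fun x => f.F s x) := by
  have h1 : Continuous (fun x => f.Q s x) :=
    continuous_iff_continuousAt.2 fun x => (f.hasFDerivAt_Q s x).continuousAt
  have h2 : Continuous (fun x => dt (f.M s x)) := by
    have : Continuous (fun x => f.M s x) := by
      refine continuous_pi fun i => continuous_pi fun k => ?_
      exact continuous_iff_continuousAt.2 fun x => (f.hasFDerivAt_M s x i k).continuousAt
    exact (detCM ι).cont.comp this
  exact (Complex.continuous_exp.comp h1.neg).mul h2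

lemma continuous_W (s : ℝ) (j : ι) : Continuous (fun x => f.W s j x) :=
  continuous_iff_continuousAt.2 fun x => by
    obtain ⟨L, hL, -⟩ := f.exists_dW s j x
    exact hL.continuousAt

lemma measurable_F' (s : ℝ) : Measurable (fun x => f.F' s x) := by
  have h : (fun x => f.F' s x) = fun x => ∑ j, Dd (fderiv ℝ (fun y => f.W s j y) x) j := by
    funext x
    exact (f.div_W s x).symm
  rw [h]
  unfold Dd
  refine Finset.measurable_sum _ fun j _ => ?_
  exact (measurable_fderiv_apply_const ℝ _ _).add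
    ((measurable_fderiv_apply_const ℝ _ _).const_mul Complex.I)

lemma integral_dW (s : ℝ) (hs : s ∈ Set.Icc (0:ℝ) 1) (j : ι) (p : PP ι) (hp : ‖p‖ ≤ 1) :
    Integrable (fun x => fderiv ℝ (fun y => f.W s j y) x p) ((volume : Measure (ι → ℝ)).prod volume) ∧
    ∫ x, fderiv ℝ (fun y => f.W s j y) x p ∂((volume : Measure (ι → ℝ)).prod volume) = 0 := by
  have hG := f.integrable_G.const_mul f.B
  have i1 : Integrable (fun x => fderiv ℝ (fun y => f.W s j y) x p)
      ((volume : Measure (ι → ℝ)).prod volume) :=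
    hG.mono' (measurable_fderiv_apply_const ℝ _ _).aestronglyMeasurable
      (Filter.Eventually.of_forall fun x => f.norm_dW_le s hs j x p hp)
  have i2 : Integrable (fun x => f.W s j x) ((volume : Measure (ι → ℝ)).prod volume) :=
    hG.mono' (f.continuous_W s j).aestronglyMeasurable
      (Filter.Eventually.of_forall fun x => f.norm_W_le s hs j x)
  refine ⟨i1, ?_⟩
  haveI := isHaarPP ι
  have h := integral_mul_fderiv_eq_neg_fderiv_mul_of_integrable
    (μ := (volume : Measure (ι → ℝ)).prod volume) (𝕜 := ℂ) (f := fun _ : PP ι => (1:ℂ))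
    (g := fun y => f.W s j y) (v := p) (by simp) (by simpa using i1) (by simpa using i2)
    (fun x _ => differentiableAt_const _) (fun x _ => by
      obtain ⟨L, hL, -⟩ := f.exists_dW s j x
      exact hL.differentiableAt)
  simpa using h

lemma norm_single_le (j : ι) : ‖(Pi.single j (1:ℝ) : ι → ℝ)‖ ≤ 1 := by
  rw [pi_norm_le_iff_of_nonneg zero_le_one]
  intro i
  by_cases h : i = j
  · subst h; simp
  · simp [Pi.single_eq_of_ne h]

lemma integral_F' (s : ℝ) (hs : s ∈ Set.Icc (0:ℝ) 1) :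
    ∫ x, f.F' s x ∂((volume : Measure (ι → ℝ)).prod volume) = 0 := by
  have h : (fun x => f.F' s x) = fun x => ∑ j, Dd (fderiv ℝ (fun y => f.W s j y) x) j := by
    funext x
    exact (f.div_W s x).symm
  rw [h]
  have hp1 : ∀ j : ι, ‖((Pi.single j 1, 0) : PP ι)‖ ≤ 1 := by
    intro j
    rw [Prod.norm_def]
    exact max_le (norm_single_le j) (by simp)
  have hp2 : ∀ j : ι, ‖((0, Pi.single j 1) : PP ι)‖ ≤ 1 := by
    intro j
    rw [Prod.norm_def]
    exact max_le (by simp) (norm_single_le j)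
  have hi : ∀ j ∈ (univ : Finset ι), Integrable (fun x => Dd (fderiv ℝ (fun y => f.W s j y) x) j)
      ((volume : Measure (ι → ℝ)).prod volume) := by
    intro j _
    exact (f.integral_dW s hs j _ (hp1 j)).1.add ((f.integral_dW s hs j _ (hp2 j)).1.const_mul _)
  rw [integral_finsetSum _ hi]
  refine Finset.sum_eq_zero fun j _ => ?_
  unfold Dd
  rw [integral_add (f.integral_dW s hs j _ (hp1 j)).1
    ((f.integral_dW s hs j _ (hp2 j)).1.const_mul _), integral_const_mul,
    (f.integral_dW s hs j _ (hp1 j)).2, (f.integral_dW s hs j _ (hp2 j)).2]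
  simp

lemma sigma_mem (θ : ℝ) : (1 - Real.cos θ) / 2 ∈ Set.Icc (0:ℝ) 1 :=
  ⟨by linarith [Real.cos_le_one θ], by linarith [Real.neg_one_le_cos θ]⟩

/-- homotopy invariance of the integral -/
theorem integral_F_eq : ∫ x, f.F 0 x ∂((volume : Measure (ι → ℝ)).prod volume) =
    ∫ x, f.F 1 x ∂((volume : Measure (ι → ℝ)).prod volume) := by
  set μ : Measure (PP ι) := (volume : Measure (ι → ℝ)).prod volume with hμ
  have hG := f.integrable_G.const_mul f.B
  have hd : ∀ θ : ℝ, HasDerivAt (fun θ : ℝ => ∫ x, f.F ((1 - Real.cos θ) / 2) x ∂μ) 0 θ := by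
    intro θ
    have h1 := hasDerivAt_integral_of_dominated_loc_of_deriv_le (μ := μ) (𝕜 := ℝ)
      (F := fun (θ : ℝ) (x : PP ι) => f.F ((1 - Real.cos θ) / 2) x)
      (F' := fun (θ : ℝ) (x : PP ι) => (Real.sin θ / 2 : ℝ) • f.F' ((1 - Real.cos θ) / 2) x)
      (bound := fun x => f.B * f.G x) (s := Set.univ) (x₀ := θ) Filter.univ_mem
      (Filter.Eventually.of_forall fun θ => (f.continuous_F _).aestronglyMeasurable)
      (hG.mono' (f.continuous_F _).aestronglyMeasurable
        (Filter.Eventually.of_forall fun x => f.norm_F_le _ (sigma_mem θ) x))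
      (by
        have h5 : Measurable (fun x : PP ι => (Real.sin θ / 2 : ℝ) • f.F' ((1 - Real.cos θ) / 2) x) :=
          Measurable.fun_const_smul (f.measurable_F' _) _
        exact h5.aestronglyMeasurable)
      (Filter.Eventually.of_forall fun x θ _ => by
        rw [norm_smul]
        have h2 := f.norm_F'_le _ (sigma_mem θ) x
        have h3 : ‖Real.sin θ / 2‖ ≤ 1 := by
          rw [Real.norm_eq_abs, abs_div]
          have := Real.abs_sin_le_one θ
          norm_num
          linarith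
        calc ‖Real.sin θ / 2‖ * ‖f.F' ((1 - Real.cos θ) / 2) x‖ ≤ 1 * (f.B * f.G x) :=
              mul_le_mul h3 h2 (norm_nonneg _) zero_le_one
          _ = _ := one_mul _)
      hG
      (Filter.Eventually.of_forall fun x θ _ => by
        have h2 : HasDerivAt (fun θ : ℝ => (1 - Real.cos θ) / 2) (Real.sin θ / 2) θ := by
          have := ((Real.hasDerivAt_cos θ).const_sub 1).div_const 2
          simpa using this
        exact (f.hasDerivAt_F ((1 - Real.cos θ) / 2) x).scomp θ h2)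
    have h4 := h1.2
    rw [integral_smul, f.integral_F' _ (sigma_mem θ), smul_zero] at h4
    exact h4
  have hc := is_const_of_deriv_eq_zero (f := fun θ : ℝ => ∫ x, f.F ((1 - Real.cos θ) / 2) x ∂μ)
    (fun θ => (hd θ).differentiableAt) (fun θ => (hd θ).deriv) 0 Real.pi
  simp only [Real.cos_zero, Real.cos_pi] at hc
  norm_num at hc
  exact hc

end Fld

end Pool.Agent.H845R2
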