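import Pool.Agent.H24.Lib.R_seed8.H845R2.Cx3

set_option autoImplicit false
set_option linter.unusedSectionVars false
open Finset MeasureTheory

namespace Pool.Agent.H845R2

variable {ι : Type*} [Fintype ι] [DecidableEq ι]

lemma dt_ofReal (r : ι → ι → ℝ) : dt (fun j k => (r j k : ℂ)) = ((Matrix.of r).det : ℂ) := by
  have := (Complex.ofRealHom).map_det (Matrix.of r)
  rw [show ((Matrix.of r).det : ℂ) = Complex.ofRealHom (Matrix.of r).det from rfl, this]
  rfl

namespace Fld

variable (f : Fld ι)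

lemma F_one (x : PP ι) : f.F 1 x = 2 ^ Fintype.card ι *
    ((∏ k, Complex.exp (-((x.1 k : ℂ) ^ 2))) * ∏ k, Complex.exp (-((x.2 k : ℂ) ^ 2))) := by
  have h1 : f.Q 1 x = ∑ k, ((x.1 k : ℂ) ^ 2 + (x.2 k : ℂ) ^ 2) := by
    unfold Q
    refine Finset.sum_congr rfl fun k _ => ?_
    unfold z V
    have hI : Complex.I * Complex.I = -1 := Complex.I_mul_I
    push_cast
    linear_combination (-(x.2 k : ℂ) ^ 2) * hI
  have h2 : dt (f.M 1 x) = 2 ^ Fintype.card ι := by
    have : f.M 1 x = fun j k => (((if j = k then 2 else 0 : ℝ)) : ℂ) := by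
      funext j k
      unfold M
      push_cast
      split_ifs <;> simp
    rw [this, dt_ofReal]
    have h3 : (Matrix.of fun j k : ι => (if j = k then 2 else 0 : ℝ)) = Matrix.diagonal (fun _ => (2:ℝ)) := by
      ext j k
      simp [Matrix.diagonal_apply]
    rw [h3, Matrix.det_diagonal]
    simp
  unfold F
  rw [h1, h2, ← Complex.exp_sum, ← Complex.exp_sum, ← Complex.exp_add, mul_comm]
  congr 2
  rw [Finset.sum_add_distrib, Finset.sum_neg_distrib, Finset.sum_neg_distrib]
  ring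

lemma integral_prod_gauss : ∫ a : ι → ℝ, ∏ k, Complex.exp (-((a k : ℂ) ^ 2)) =
    ((Real.sqrt Real.pi) ^ Fintype.card ι : ℝ) := by
  rw [MeasureTheory.integral_fintype_prod_volume_eq_pow (𝕜 := ℂ) (ι := ι)
    (fun t : ℝ => Complex.exp (-((t : ℂ) ^ 2)))]
  have h1 : ∫ t : ℝ, Complex.exp (-((t : ℂ) ^ 2)) = (Real.sqrt Real.pi : ℂ) := by
    have h2 := integral_gaussian 1
    have h3 : (fun t : ℝ => Complex.exp (-((t : ℂ) ^ 2))) = fun t : ℝ => ((Real.exp (-1 * t ^ 2) : ℝ) : ℂ) := by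
      funext t
      push_cast
      congr 1
      ring
    rw [h3, integral_complex_ofReal, h2, div_one]
  rw [h1]
  push_cast
  rfl

lemma integral_F_one : ∫ x, f.F 1 x ∂((volume : Measure (ι → ℝ)).prod volume) =
    (((2 * Real.pi) ^ Fintype.card ι : ℝ) : ℂ) := by
  have h : (fun x => f.F 1 x) = fun x : PP ι => 2 ^ Fintype.card ι *
    ((∏ k, Complex.exp (-((x.1 k : ℂ) ^ 2))) * ∏ k, Complex.exp (-((x.2 k : ℂ) ^ 2))) := by
    funext x
    exact f.F_one x
  rw [h, integral_const_mul, integral_prod_mul (μ := (volume : Measure (ι → ℝ)))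
    (ν := (volume : Measure (ι → ℝ))) (fun a : ι → ℝ => ∏ k, Complex.exp (-((a k : ℂ) ^ 2)))
    (fun a : ι → ℝ => ∏ k, Complex.exp (-((a k : ℂ) ^ 2))), integral_prod_gauss]
  rw [← Complex.ofReal_mul, ← mul_pow, Real.mul_self_sqrt Real.pi_pos.le]
  push_cast
  rw [mul_pow]

lemma norm_F_zero (x : PP ι) : ‖f.F 0 x‖ =
    Real.exp (-((∑ k, x.1 k * f.v k x.1) + ∑ k, x.2 k * f.v k x.2)) *
      |(Matrix.of fun j k => f.h j k x.1 + f.h j k x.2).det| := by
  unfold F
  rw [norm_mul, Complex.norm_exp, Complex.neg_re, re_Q]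
  have : f.M 0 x = fun j k => ((f.h j k x.1 + f.h j k x.2 : ℝ) : ℂ) := by
    funext j k
    unfold M
    push_cast
    ring
  rw [this, dt_ofReal, Complex.norm_real, Real.norm_eq_abs]
  congr 2
  ring

/-- the key lower bound -/
theorem main_lower : (2 * Real.pi) ^ Fintype.card ι ≤
    ∫ x : PP ι, Real.exp (-((∑ k, x.1 k * f.v k x.1) + ∑ k, x.2 k * f.v k x.2)) *
      |(Matrix.of fun j k => f.h j k x.1 + f.h j k x.2).det|
      ∂((volume : Measure (ι → ℝ)).prod volume) := by
  have h1 := norm_integral_le_integral_norm (μ := (volume : Measure (ι → ℝ)).prod volume)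
    (fun x => f.F 0 x)
  rw [f.integral_F_eq, f.integral_F_one, Complex.norm_real,
    Real.norm_of_nonneg (by positivity)] at h1
  simp_rw [norm_F_zero] at h1
  exact h1

end Fld

end Pool.Agent.H845R2
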