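import Mathlib

set_option autoImplicit false
open Matrix Finset

namespace Pool.Agent.H845R2

variable {ι : Type*} [Fintype ι] [DecidableEq ι]

/-- the determinant as a function of the rows -/
noncomputable def dt (R : ι → ι → ℂ) : ℂ := (Matrix.of R).det

/-- the determinant as a real continuous multilinear map of the rows -/
noncomputable def detCM (ι : Type*) [Fintype ι] [DecidableEq ι] :
    ContinuousMultilinearMap ℝ (fun _ : ι => ι → ℂ) ℂ where
  toMultilinearMap := ((Matrix.detRowAlternating (n := ι) (R := ℂ)).toMultilinearMap).restrictScalars ℝ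
  cont := by
    change Continuous (fun M : Matrix ι ι ℂ => M.det)
    exact Continuous.matrix_det continuous_id

lemma detCM_apply (R : ι → ι → ℂ) : detCM ι R = dt R := rfl

/-- derivative of the determinant of a matrix valued function -/
theorem hasFDerivAt_dt {P : Type*} [NormedAddCommGroup P] [NormedSpace ℝ P]
    (R : P → ι → ι → ℂ) (R' : ι → ι → P →L[ℝ] ℂ) (x : P)
    (h : ∀ i k, HasFDerivAt (fun y => R y i k) (R' i k) x) :
    ∃ L : P →L[ℝ] ℂ, HasFDerivAt (fun y => dt (R y)) L x ∧
      ∀ p, L p = ∑ i, dt (Function.update (R x) i (fun k => R' i k p)) := by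
  have h1 : HasFDerivAt R (ContinuousLinearMap.pi fun i => ContinuousLinearMap.pi fun k => R' i k) x := by
    rw [hasFDerivAt_pi]
    intro i
    rw [hasFDerivAt_pi]
    intro k
    exact h i k
  have h2 := ((detCM ι).hasFDerivAt (R x)).comp x h1
  refine ⟨_, h2, ?_⟩
  intro p
  rw [ContinuousLinearMap.comp_apply, ContinuousMultilinearMap.linearDeriv_apply]
  rfl

/-- derivative along a real parameter -/
theorem hasDerivAt_dt (R : ℝ → ι → ι → ℂ) (R' : ι → ι → ℂ) (t : ℝ)
    (h : ∀ i k, HasDerivAt (fun y => R y i k) (R' i k) t) :
    HasDerivAt (fun y => dt (R y)) (∑ i, dt (Function.update (R t) i (R' i))) t := by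
  obtain ⟨L, hL, hp⟩ := hasFDerivAt_dt R
    (fun i k => ContinuousLinearMap.toSpanSingleton ℝ (R' i k)) t
    (fun i k => (h i k).hasFDerivAt)
  have := hL.hasDerivAt
  rw [hp 1] at this
  convert this using 1
  refine Finset.sum_congr rfl fun i _ => ?_
  congr 1
  congr 1
  funext k
  simp

/-- crude bound for determinants -/
lemma norm_dt_le (R : ι → ι → ℂ) (X : ℝ) (h : ∀ i k, ‖R i k‖ ≤ X) :
    ‖dt R‖ ≤ (Fintype.card ι).factorial * X ^ Fintype.card ι := by
  have := Matrix.det_le (abv := (IsAbsoluteValue.toAbsoluteValue (norm : ℂ → ℝ))) (A := Matrix.of R) (x := X) h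
  simpa [nsmul_eq_mul, dt] using this

lemma dt_update (R : ι → ι → ℂ) (j : ι) (U : ι → ℂ) :
    dt (Function.update R j U) = ((Matrix.of R).adjugateᵀ *ᵥ U) j := by
  have h1 : dt (Function.update R j U) = ((Matrix.of R).updateRow j U).det := rfl
  rw [h1, ← Matrix.cramer_transpose_apply, Matrix.cramer_eq_adjugate_mulVec, Matrix.adjugate_transpose]

/-- Cramer's rule in the form needed here -/
lemma sum_mul_dt_update (R : ι → ι → ℂ) (c U : ι → ℂ) :
    ∑ j, (∑ l, R j l * c l) * dt (Function.update R j U) = dt R * ∑ k, U k * c k := by
  have h1 : ∀ j, dt (Function.update R j U) = ((Matrix.of R).adjugateᵀ *ᵥ U) j :=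
    fun j => dt_update R j U
  simp_rw [h1]
  have h2 : ∑ j, (∑ l, R j l * c l) * ((Matrix.of R).adjugateᵀ *ᵥ U) j
      = ((Matrix.of R) *ᵥ c) ⬝ᵥ ((Matrix.of R).adjugateᵀ *ᵥ U) := rfl
  rw [h2, dotProduct_comm, Matrix.mulVec_transpose, ← Matrix.dotProduct_mulVec,
    Matrix.mulVec_mulVec, Matrix.adjugate_mul, Matrix.smul_mulVec, Matrix.one_mulVec,
    dotProduct_smul, smul_eq_mul]
  rfl

/-- The divergence identity (Piola identity) in algebraic form. `T j i` is the derivative in
direction `j` of the row `i`, symmetric in `i, j`. -/
lemma piola (R : ι → ι → ℂ) (U : ι → ℂ) (T : ι → ι → ι → ℂ) (DU : ι → ι → ℂ)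
    (hT : ∀ j i, T j i = T i j) :
    ∑ j, ∑ i, dt (Function.update (Function.update R j U) i (if i = j then DU j else T j i))
      = ∑ j, dt (Function.update R j (DU j)) := by
  have h1 : ∀ j, ∑ i, dt (Function.update (Function.update R j U) i (if i = j then DU j else T j i))
      = dt (Function.update R j (DU j)) +
        ∑ i, (if i = j then 0 else dt (Function.update (Function.update R j U) i (T j i))) := by
    intro j
    rw [← Finset.add_sum_erase _ _ (Finset.mem_univ j),
      ← Finset.add_sum_erase (s := univ) (f := fun i => if i = j then (0:ℂ) else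
        dt (Function.update (Function.update R j U) i (T j i))) (h := Finset.mem_univ j)]
    simp only [if_true, zero_add]
    congr 1
    · rw [Function.update_idem]
    · refine Finset.sum_congr rfl fun i hi => ?_
      have : i ≠ j := Finset.ne_of_mem_erase hi
      simp [this]
  simp_rw [h1]
  rw [Finset.sum_add_distrib]
  have h2 : ∑ j, ∑ i, (if i = j then (0:ℂ) else
      dt (Function.update (Function.update R j U) i (T j i))) = 0 := by
    set S := ∑ j, ∑ i, (if i = j then (0:ℂ) else
      dt (Function.update (Function.update R j U) i (T j i))) with hS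
    have h3 : S = -S := by
      conv_rhs => rw [hS, Finset.sum_comm]
      rw [hS, ← Finset.sum_neg_distrib]
      refine Finset.sum_congr rfl fun j _ => ?_
      rw [← Finset.sum_neg_distrib]
      refine Finset.sum_congr rfl fun i _ => ?_
      by_cases hij : i = j
      · simp [hij]
      · have hji : j ≠ i := fun h => hij h.symm
        rw [if_neg hij, if_neg hji, hT j i]
        -- swap the two rows
        have h4 := Matrix.det_permute (Equiv.swap i j)
          (Matrix.of (Function.update (Function.update R i U) j (T i j)))
        rw [Equiv.Perm.sign_swap hij] at h4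
        have h5 : ((Matrix.of (Function.update (Function.update R i U) j (T i j))).submatrix
            (Equiv.swap i j) id).det = dt (Function.update (Function.update R j U) i (T i j)) := by
          unfold dt
          congr 1
          ext r k
          simp only [Matrix.submatrix_apply, Matrix.of_apply, id]
          by_cases hri : r = i
          · subst hri
            rw [Equiv.swap_apply_left, Function.update_self, Function.update_self]
          · by_cases hrj : r = j
            · subst hrj
              rw [Equiv.swap_apply_right, Function.update_of_ne hij, Function.update_self,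
                Function.update_of_ne hji, Function.update_self]
            · rw [Equiv.swap_apply_of_ne_of_ne hri hrj, Function.update_of_ne hrj,
                Function.update_of_ne hri, Function.update_of_ne hri, Function.update_of_ne hrj]
        rw [← h5, h4]
        simp [dt]
    have h6 : S + S = 0 := by
      nth_rewrite 1 [h3]
      ring
    have h7 : (2:ℂ) * S = 0 := by rw [two_mul]; exact h6
    simpa using h7
  rw [h2, add_zero]

end Pool.Agent.H845R2
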