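import Pool.Agent.H24.Lib.R_seed8.H845R2.Cx4

set_option autoImplicit false
set_option linter.unusedSectionVars false
open Finset MeasureTheory Matrix

namespace Pool.Agent.H845R2

variable {ι : Type*} [Fintype ι] [DecidableEq ι]

/-- symmetric convex bodies in coordinates -/
structure CB (K : Set (ι → ℝ)) : Prop where
  comp : IsCompact K
  conv : Convex ℝ K
  symm : ∀ x ∈ K, -x ∈ K
  int : (interior K).Nonempty

/-- exponential integrals -/
noncomputable def J (K : Set (ι → ℝ)) (w : (ι → ℝ) → ℝ) (a : ι → ℝ) : ℝ :=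
  ∫ x in K, w x * Real.exp (a ⬝ᵥ x)

/-- tilted averages -/
noncomputable def q (K : Set (ι → ℝ)) (w : (ι → ℝ) → ℝ) (a : ι → ℝ) : ℝ :=
  J K w a / J K (fun _ => 1) a

namespace CB

variable {K : Set (ι → ℝ)} (hK : CB K)
include hK

lemma meas : MeasurableSet K := hK.comp.measurableSet

lemma vol_lt : volume K < ⊤ := hK.comp.measure_lt_top

lemma vol_pos : 0 < volume K :=
  (isOpen_interior.measure_pos volume hK.int).trans_le (measure_mono interior_subset)

lemma exists_R : ∃ R : ℝ, 1 ≤ R ∧ ∀ x ∈ K, ‖x‖ ≤ R := by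
  obtain ⟨R, hR⟩ := hK.comp.isBounded.exists_norm_le
  exact ⟨max R 1, le_max_right _ _, fun x hx => (hR x hx).trans (le_max_left _ _)⟩

lemma integrableOn_of_continuous (g : (ι → ℝ) → ℝ) (hg : Continuous g) : IntegrableOn g K :=
  hg.continuousOn.integrableOn_compact hK.comp

lemma continuous_integrand (w : (ι → ℝ) → ℝ) (hw : Continuous w) (a : ι → ℝ) :
    Continuous (fun x => w x * Real.exp (a ⬝ᵥ x)) := by
  have : Continuous (fun x : ι → ℝ => a ⬝ᵥ x) := by
    unfold dotProduct; fun_prop
  fun_prop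

lemma hasFDerivAt_J (w : (ι → ℝ) → ℝ) (hw : Continuous w) (a : ι → ℝ) :
    HasFDerivAt (J K w) (∑ j, J K (fun x => x j * w x) a •
      ContinuousLinearMap.proj (R := ℝ) (φ := fun _ : ι => ℝ) j) a := by
  obtain ⟨R, hR1, hR⟩ := hK.exists_R
  have hN : (0:ℝ) ≤ Fintype.card ι := by positivity
  -- the derivative of the integrand
  let L : (ι → ℝ) → ((ι → ℝ) →L[ℝ] ℝ) := fun x =>
    ∑ j, x j • ContinuousLinearMap.proj (R := ℝ) (φ := fun _ : ι => ℝ) j
  have hL : ∀ x a, L x a = a ⬝ᵥ x := by
    intro x a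
    simp [L, dotProduct, mul_comm]
  have hLc : Continuous L := by
    refine continuous_finsetSum _ fun j _ => ?_
    exact (continuous_apply j).smul continuous_const
  have hd : ∀ x b, HasFDerivAt (fun b : ι → ℝ => w x * Real.exp (b ⬝ᵥ x))
      ((w x * Real.exp (b ⬝ᵥ x)) • L x) b := by
    intro x b
    have h1 : HasFDerivAt (fun b : ι → ℝ => b ⬝ᵥ x) (L x) b := by
      have h0 := (L x).hasFDerivAt (x := b)
      have h00 : (fun b : ι → ℝ => b ⬝ᵥ x) = ⇑(L x) := by
        funext b
        exact (hL x b).symm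
      rw [h00]
      exact h0
    have h2 := (h1.exp).const_mul (w x)
    refine h2.congr_fderiv ?_
    rw [smul_smul]
  have hmain := hasFDerivAt_integral_of_dominated_of_fderiv_le (μ := volume.restrict K) (𝕜 := ℝ)
    (F := fun (b : ι → ℝ) x => w x * Real.exp (b ⬝ᵥ x))
    (F' := fun (b : ι → ℝ) x => (w x * Real.exp (b ⬝ᵥ x)) • L x) (x₀ := a)
    (bound := fun x => |w x| * Real.exp (Fintype.card ι * ((‖a‖ + 1) * R)) * ‖L x‖)
    (s := Metric.ball a 1) (Metric.ball_mem_nhds a one_pos)
    (Filter.Eventually.of_forall fun b => (hK.continuous_integrand w hw b).aestronglyMeasurable)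
    (hK.integrableOn_of_continuous _ (hK.continuous_integrand w hw a))
    (((hK.continuous_integrand w hw a).smul hLc).aestronglyMeasurable)
    (by
      refine (ae_restrict_iff' hK.meas).2 (Filter.Eventually.of_forall fun x hx b hb => ?_)
      rw [norm_smul, norm_mul, Real.norm_eq_abs, Real.norm_of_nonneg (Real.exp_pos _).le]
      have hb1 : ‖b‖ ≤ ‖a‖ + 1 := by
        have := mem_ball_iff_norm.1 hb
        calc ‖b‖ = ‖a + (b - a)‖ := by congr 1; abel
          _ ≤ ‖a‖ + ‖b - a‖ := norm_add_le _ _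
          _ ≤ ‖a‖ + 1 := by linarith
      have h1 : b ⬝ᵥ x ≤ Fintype.card ι * ((‖a‖ + 1) * R) := by
        unfold dotProduct
        refine (Finset.sum_le_card_nsmul _ _ ((‖a‖ + 1) * R) fun j _ => ?_).trans (by simp)
        have h2 := norm_le_pi_norm b j
        have h3 := norm_le_pi_norm x j
        rw [Real.norm_eq_abs] at h2 h3
        calc b j * x j ≤ |b j * x j| := le_abs_self _
          _ = |b j| * |x j| := abs_mul _ _
          _ ≤ (‖a‖ + 1) * R := mul_le_mul (h2.trans hb1) (h3.trans (hR x hx)) (abs_nonneg _) (by positivity)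
      gcongr)
    (hK.integrableOn_of_continuous _ (by fun_prop))
    (Filter.Eventually.of_forall fun x b _ => hd x b)
  have hint : ∫ x in K, (w x * Real.exp (a ⬝ᵥ x)) • L x = ∑ j, J K (fun x => x j * w x) a •
      ContinuousLinearMap.proj (R := ℝ) (φ := fun _ : ι => ℝ) j := by
    have h1 : ∀ x : ι → ℝ, (w x * Real.exp (a ⬝ᵥ x)) • L x =
        ∑ j, (x j * w x * Real.exp (a ⬝ᵥ x)) • ContinuousLinearMap.proj (R := ℝ) (φ := fun _ : ι => ℝ) j := by
      intro x
      simp only [L, Finset.smul_sum, smul_smul]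
      refine Finset.sum_congr rfl fun j _ => ?_
      congr 1
      ring
    simp_rw [h1]
    rw [integral_finsetSum]
    · refine Finset.sum_congr rfl fun j _ => ?_
      rw [integral_smul_const]
      rfl
    · intro j _
      refine Integrable.smul_const ?_ _
      exact hK.integrableOn_of_continuous _
        (hK.continuous_integrand (fun x => x j * w x) ((continuous_apply j).mul hw) a)
  rw [hint] at hmain
  exact hmain

lemma Z_pos (a : ι → ℝ) : 0 < J K (fun _ => 1) a := by
  unfold J
  have h1 : IntegrableOn (fun x : ι → ℝ => 1 * Real.exp (a ⬝ᵥ x)) K :=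
    hK.integrableOn_of_continuous _ (hK.continuous_integrand (fun _ => 1) continuous_const a)
  rw [setIntegral_pos_iff_support_of_nonneg_ae]
  · have : Function.support (fun x : ι → ℝ => 1 * Real.exp (a ⬝ᵥ x)) ∩ K = K := by
      ext x
      simp
    rw [this]
    exact hK.vol_pos
  · exact Filter.Eventually.of_forall fun x => by positivity
  · exact h1

lemma hasFDerivAt_q (w : (ι → ℝ) → ℝ) (hw : Continuous w) (a : ι → ℝ) :
    HasFDerivAt (q K w) (∑ l, (q K (fun x => x l * w x) a - q K w a * q K (fun x => x l) a) •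
      ContinuousLinearMap.proj (R := ℝ) (φ := fun _ : ι => ℝ) l) a := by
  have hZ := hK.Z_pos a
  have h1 := hK.hasFDerivAt_J w hw a
  have h2 := hK.hasFDerivAt_J (fun _ => 1) continuous_const a
  have h3 := h1.mul ((hasDerivAt_inv hZ.ne').comp_hasFDerivAt a h2)
  have h4 : q K w = fun a => J K w a * (J K (fun _ => 1) a)⁻¹ := by
    funext b
    unfold q
    rw [div_eq_mul_inv]
  rw [h4]
  refine h3.congr_fderiv ?_
  ext p
  simp only [_root_.add_apply, _root_.smul_apply, _root_.sum_apply, smul_eq_mul, ContinuousLinearMap.proj_apply,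
    Finset.mul_sum, ← Finset.sum_add_distrib, Function.comp]
  refine Finset.sum_congr rfl fun l _ => ?_
  unfold q
  simp only [mul_one]
  field_simp
  ring

end CB

end Pool.Agent.H845R2
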