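import Pool.Agent.H24.Lib.R_seed8.H845R2.LL1

set_option autoImplicit false
set_option linter.unusedSectionVars false
open Finset MeasureTheory Matrix

namespace Pool.Agent.H845R2

variable {ι : Type*} [Fintype ι] [DecidableEq ι]

namespace CB

variable {K : Set (ι → ℝ)} (hK : CB K)
include hK

lemma integrable_w (w : (ι → ℝ) → ℝ) (hw : Continuous w) (a : ι → ℝ) :
    IntegrableOn (fun x => w x * Real.exp (a ⬝ᵥ x)) K :=
  hK.integrableOn_of_continuous _ (hK.continuous_integrand w hw a)

lemma J_mono (w w' : (ι → ℝ) → ℝ) (hw : Continuous w) (hw' : Continuous w') (a : ι → ℝ)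
    (h : ∀ x ∈ K, w x ≤ w' x) : J K w a ≤ J K w' a := by
  unfold J
  refine setIntegral_mono_on (hK.integrable_w w hw a) (hK.integrable_w w' hw' a) hK.meas fun x hx => ?_
  exact mul_le_mul_of_nonneg_right (h x hx) (Real.exp_pos _).le

lemma q_mono (w w' : (ι → ℝ) → ℝ) (hw : Continuous w) (hw' : Continuous w') (a : ι → ℝ)
    (h : ∀ x ∈ K, w x ≤ w' x) : q K w a ≤ q K w' a :=
  div_le_div_of_nonneg_right (hK.J_mono w w' hw hw' a h) (hK.Z_pos a).le

lemma q_const (c : ℝ) (a : ι → ℝ) : q K (fun _ => c) a = c := by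
  have hZ := hK.Z_pos a
  have : J K (fun _ => c) a = c * J K (fun _ => 1) a := by
    unfold J
    rw [← integral_const_mul]
    simp
  unfold q
  rw [this, mul_div_assoc, div_self hZ.ne', mul_one]

lemma q_add (w w' : (ι → ℝ) → ℝ) (hw : Continuous w) (hw' : Continuous w') (a : ι → ℝ) :
    q K (fun x => w x + w' x) a = q K w a + q K w' a := by
  unfold q
  rw [← add_div]
  congr 1
  unfold J
  rw [← integral_add (hK.integrable_w w hw a) (hK.integrable_w w' hw' a)]
  congr 1
  funext x
  ring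

lemma q_smul (c : ℝ) (w : (ι → ℝ) → ℝ) (a : ι → ℝ) :
    q K (fun x => c * w x) a = c * q K w a := by
  unfold q
  rw [← mul_div_assoc]
  congr 1
  unfold J
  rw [← integral_const_mul]
  congr 1
  funext x
  ring

lemma q_sum {κ : Type*} (s : Finset κ) (w : κ → (ι → ℝ) → ℝ) (hw : ∀ k, Continuous (w k)) (a : ι → ℝ) :
    q K (fun x => ∑ k ∈ s, w k x) a = ∑ k ∈ s, q K (w k) a := by
  classical
  induction s using Finset.induction_on with
  | empty => simp [hK.q_const]
  | insert k s hk ih =>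
    simp_rw [Finset.sum_insert hk]
    rw [hK.q_add _ _ (hw k) (continuous_finsetSum _ fun k _ => hw k), ih]

lemma q_abs_le (w : (ι → ℝ) → ℝ) (hw : Continuous w) (B : ℝ) (hB : ∀ x ∈ K, |w x| ≤ B) (a : ι → ℝ) :
    |q K w a| ≤ B := by
  rw [abs_le]
  constructor
  · have := hK.q_mono (fun _ => -B) w continuous_const hw a fun x hx => (abs_le.1 (hB x hx)).1
    rwa [hK.q_const] at this
  · have := hK.q_mono w (fun _ => B) hw continuous_const a fun x hx => (abs_le.1 (hB x hx)).2
    rwa [hK.q_const] at this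

/-- tilted barycentre -/
noncomputable def _root_.Pool.Agent.H845R2.bar (K : Set (ι → ℝ)) (a : ι → ℝ) : ι → ℝ := fun k => q K (fun x => x k) a

lemma dot_bar (u a : ι → ℝ) : u ⬝ᵥ bar K a = q K (fun x => u ⬝ᵥ x) a := by
  unfold dotProduct bar
  rw [hK.q_sum _ _ (fun k => by fun_prop)]
  refine Finset.sum_congr rfl fun k _ => ?_
  rw [hK.q_smul]

lemma cont_dot (u : ι → ℝ) : Continuous (fun x : ι → ℝ => u ⬝ᵥ x) := by
  unfold dotProduct; fun_prop

/-- the tilted barycentre lies in `K` -/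
lemma bar_mem (a : ι → ℝ) : bar K a ∈ K := by
  by_contra hn
  obtain ⟨f, u, hu1, hu2⟩ := geometric_hahn_banach_closed_point hK.conv hK.comp.isClosed hn
  -- represent `f` by a vector
  set c : ι → ℝ := fun k => f (Pi.single k 1) with hc
  have hf : ∀ x : ι → ℝ, f x = c ⬝ᵥ x := by
    intro x
    conv_lhs => rw [← LinearMap.sum_single_apply (fun _ : ι => ℝ) x]
    rw [map_sum]
    unfold dotProduct
    refine Finset.sum_congr rfl fun k _ => ?_
    rw [hc]
    have : (LinearMap.single ℝ (fun _ : ι => ℝ) k (x k) : ι → ℝ) = x k • Pi.single k 1 := by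
      funext i
      by_cases h : i = k
      · subst h; simp
      · simp [Pi.single_eq_of_ne h]
    simp only [LinearMap.coe_single] at this
    rw [this, map_smul, smul_eq_mul, mul_comm]
  rw [hf, hK.dot_bar] at hu2
  have h3 := hK.q_mono (fun x => c ⬝ᵥ x) (fun _ => u) (hK.cont_dot c) continuous_const a
    (fun x hx => by have := hu1 x hx; rw [hf] at this; exact this.le)
  rw [hK.q_const] at h3
  linarith

/-- `Λ(a) ≤ ⟨a, bar a⟩` in multiplicative form -/
lemma Z_le (a : ι → ℝ) : J K (fun _ => 1) a ≤ (volume K).toReal * Real.exp (a ⬝ᵥ bar K a) := by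
  have hZ := hK.Z_pos a
  set m := a ⬝ᵥ bar K a with hm
  have h1 : q K (fun x => Real.exp (m - a ⬝ᵥ x)) a ≥ 1 := by
    have h2 := hK.q_mono (fun x => 1 + (m + (-1) * (a ⬝ᵥ x))) (fun x => Real.exp (m - a ⬝ᵥ x))
      (by have := hK.cont_dot a; fun_prop) (by have := hK.cont_dot a; fun_prop) a
      (fun x _ => by have := Real.add_one_le_exp (m - a ⬝ᵥ x); linarith)
    rw [hK.q_add _ _ continuous_const (by have := hK.cont_dot a; fun_prop),
      hK.q_add _ _ continuous_const (by have := hK.cont_dot a; fun_prop), hK.q_smul, hK.q_const,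
      hK.q_const, ← hK.dot_bar, ← hm] at h2
    linarith
  have h3 : J K (fun x => Real.exp (m - a ⬝ᵥ x)) a = (volume K).toReal * Real.exp m := by
    unfold J
    have : ∀ x : ι → ℝ, Real.exp (m - a ⬝ᵥ x) * Real.exp (a ⬝ᵥ x) = Real.exp m := by
      intro x
      rw [← Real.exp_add]
      congr 1
      ring
    simp_rw [this]
    rw [setIntegral_const, smul_eq_mul]
    rfl
  unfold q at h1
  rw [h3, ge_iff_le, le_div_iff₀ hZ, one_mul] at h1
  exact h1

/-- Cauchy-Schwarz: log-convexity of `Z` -/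
lemma Z_mid (a b : ι → ℝ) : J K (fun _ => 1) ((1/2:ℝ) • (a + b)) ≤
    Real.sqrt (J K (fun _ => 1) a * J K (fun _ => 1) b) := by
  have hA := hK.Z_pos a
  have hB := hK.Z_pos b
  set A := J K (fun _ => 1) a
  set B := J K (fun _ => 1) b
  set l := Real.sqrt (B / A) with hl
  have hl0 : 0 < l := Real.sqrt_pos.2 (by positivity)
  have h1 : J K (fun _ => 1) ((1/2:ℝ) • (a + b)) ≤ (l * A + l⁻¹ * B) / 2 := by
    have e : (l * A + l⁻¹ * B) / 2 = ∫ x in K, ((l / 2) * (1 * Real.exp (a ⬝ᵥ x)) + (l⁻¹ / 2) * (1 * Real.exp (b ⬝ᵥ x))) := by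
      rw [integral_add ((hK.integrable_w (fun _ => 1) continuous_const a).const_mul _)
        ((hK.integrable_w (fun _ => 1) continuous_const b).const_mul _), integral_const_mul (l / 2),
        integral_const_mul (l⁻¹ / 2)]
      change _ = l / 2 * A + l⁻¹ / 2 * B
      ring
    rw [e]
    unfold J
    refine setIntegral_mono_on (hK.integrable_w (fun _ => 1) continuous_const _) ?_ hK.meas fun x _ => ?_
    · exact ((hK.integrable_w (fun _ => 1) continuous_const a).const_mul _).add
        ((hK.integrable_w (fun _ => 1) continuous_const b).const_mul _)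
    · have h2 : ((1/2:ℝ) • (a + b)) ⬝ᵥ x = (a ⬝ᵥ x) / 2 + (b ⬝ᵥ x) / 2 := by
        rw [smul_dotProduct, add_dotProduct, smul_eq_mul]; ring
      rw [h2, Real.exp_add]
      set s := Real.exp (a ⬝ᵥ x / 2) with hs
      set t := Real.exp (b ⬝ᵥ x / 2) with ht
      have hs2 : Real.exp (a ⬝ᵥ x) = s ^ 2 := by
        rw [hs, sq, ← Real.exp_add]; congr 1; ring
      have ht2 : Real.exp (b ⬝ᵥ x) = t ^ 2 := by
        rw [ht, sq, ← Real.exp_add]; congr 1; ring
      rw [hs2, ht2]
      have h3 : 0 ≤ (l * s - t) ^ 2 := sq_nonneg _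
      have h4 : l * (l⁻¹) = 1 := mul_inv_cancel₀ hl0.ne'
      have h5 : 0 ≤ l⁻¹ * (l * s - t) ^ 2 := mul_nonneg (by positivity) h3
      have h6 : l⁻¹ * (l * s - t) ^ 2 = (l⁻¹ * l) * (l * s ^ 2) - 2 * (l⁻¹ * l) * s * t + l⁻¹ * t ^ 2 := by ring
      rw [h6, inv_mul_cancel₀ hl0.ne'] at h5
      linarith
  refine h1.trans (le_of_eq ?_)
  have hAB : l * l = B / A := Real.mul_self_sqrt (by positivity)
  have h7 : Real.sqrt (A * B) = l * A := by
    rw [show A * B = (l * A) * (l * A) by
      have : (l * A) * (l * A) = (l * l) * (A * A) := by ring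
      rw [this, hAB]; field_simp]
    exact Real.sqrt_mul_self (by positivity)
  rw [h7]
  have h8 : l⁻¹ * B = l * A := by
    have : B = l * l * A := by rw [hAB]; field_simp
    rw [this]
    field_simp
  rw [h8]; ring

/-- symmetry: `∫_K exp ⟨a,x⟩ ≥ |K|` -/
lemma Z_ge (a : ι → ℝ) : (volume K).toReal ≤ J K (fun _ => 1) a := by
  have h1 : J K (fun _ => 1) (-a) = J K (fun _ => 1) a := by
    unfold J
    have hneg : K = (fun x => -x) ⁻¹' K := by
      ext x
      constructor
      · intro h; exact hK.symm x h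
      · intro h; have := hK.symm _ h; simpa using this
    have := (Measure.measurePreserving_neg (volume : Measure (ι → ℝ))).setIntegral_preimage_emb
      (MeasurableEquiv.neg (ι → ℝ)).measurableEmbedding (fun x => 1 * Real.exp (a ⬝ᵥ x)) K
    rw [← hneg] at this
    rw [← this]
    simp
  have h2 := hK.Z_mid a (-a)
  rw [h1, Real.sqrt_mul_self (hK.Z_pos a).le, add_neg_cancel, smul_zero] at h2
  refine le_trans (le_of_eq ?_) h2
  unfold J
  simp
  rfl

end CB

end Pool.Agent.H845R2
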