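import Pool.Agent.H24.Lib.R_seed8.H845R2.LL2

set_option autoImplicit false
set_option linter.unusedSectionVars false
open Finset MeasureTheory Matrix

namespace Pool.Agent.H845R2

variable {ι : Type*} [Fintype ι] [DecidableEq ι]

namespace CB

variable {K : Set (ι → ℝ)} (hK : CB K)
include hK

lemma mid_mem {x y : ι → ℝ} (hx : x ∈ K) (hy : y ∈ K) : (1/2:ℝ) • (x + y) ∈ K := by
  have := hK.conv hx hy (by norm_num : (0:ℝ) ≤ 1/2) (by norm_num : (0:ℝ) ≤ 1/2) (by norm_num)
  rwa [smul_add]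

lemma zero_mem : (0 : ι → ℝ) ∈ K := by
  obtain ⟨x, hx⟩ := hK.int
  have h1 := interior_subset hx
  have := hK.mid_mem h1 (hK.symm x h1)
  simpa using this

lemma zero_mem_interior : (0 : ι → ℝ) ∈ interior K := by
  obtain ⟨x, hx⟩ := hK.int
  have h1 : -x ∈ K := hK.symm x (interior_subset hx)
  have := hK.conv.combo_interior_self_mem_interior hx h1 (by norm_num : (0:ℝ) < 1/2)
    (by norm_num : (0:ℝ) ≤ 1/2) (by norm_num)
  simpa using this

lemma exists_r : ∃ r : ℝ, 0 < r ∧ Metric.closedBall (0 : ι → ℝ) r ⊆ K := by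
  obtain ⟨r, hr, h⟩ := Metric.isOpen_iff.1 isOpen_interior _ hK.zero_mem_interior
  refine ⟨r / 2, by linarith, ?_⟩
  exact (Metric.closedBall_subset_ball (by linarith)).trans (h.trans interior_subset)

/-- lower bound of `Z` by the support function -/
lemma Z_lower (a x₀ : ι → ℝ) (hx : x₀ ∈ K) :
    (1/2:ℝ) ^ Fintype.card ι * (Real.exp ((a ⬝ᵥ x₀) / 2) * (volume K).toReal) ≤ J K (fun _ => 1) a := by
  set g : (ι → ℝ) → ℝ := K.indicator (fun x => 1 * Real.exp (a ⬝ᵥ x)) with hg
  have h1 : J K (fun _ => 1) a = ∫ x, g x := by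
    rw [hg, integral_indicator hK.meas]
    rfl
  have h2 : ∫ x, g x = (1/2:ℝ) ^ Fintype.card ι * ∫ x, g ((1/2:ℝ) • (x₀ + x)) := by
    have e1 : ∫ x, g ((1/2:ℝ) • (x₀ + x)) = ∫ x, g ((1/2:ℝ) • x) :=
      integral_add_left_eq_self (fun x => g ((1/2:ℝ) • x)) x₀
    rw [e1, Measure.integral_comp_smul]
    rw [Module.finrank_pi, smul_eq_mul, ← mul_assoc, abs_of_pos (by positivity),
      mul_inv_cancel₀ (by positivity), one_mul]
  rw [h1, h2]
  refine mul_le_mul_of_nonneg_left ?_ (by positivity)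
  have h3 : ∫ x in K, Real.exp ((a ⬝ᵥ x₀) / 2) * (1 * Real.exp (((1/2:ℝ) • a) ⬝ᵥ x)) ≤
      ∫ x, g ((1/2:ℝ) • (x₀ + x)) := by
    rw [← integral_indicator hK.meas]
    refine integral_mono_of_nonneg (Filter.Eventually.of_forall fun x => ?_) ?_
      (Filter.Eventually.of_forall fun x => ?_)
    · exact Set.indicator_nonneg (fun x _ => by positivity) x
    · have : Integrable g := by
        rw [hg, integrable_indicator_iff hK.meas]
        exact hK.integrable_w (fun _ => 1) continuous_const a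
      have h4 : Integrable (fun x => g ((1/2:ℝ) • x)) := this.comp_smul (by norm_num)
      exact h4.comp_add_left x₀
    · by_cases hxK : x ∈ K
      · simp only [Set.indicator_of_mem hxK]
        have hm := hK.mid_mem hx hxK
        simp only [hg, Set.indicator_of_mem hm]
        rw [one_mul, one_mul, ← Real.exp_add]
        apply Real.exp_le_exp.2
        rw [smul_dotProduct, dotProduct_smul, dotProduct_add, smul_eq_mul, smul_eq_mul]
        linarith
      · simp only [Set.indicator_of_notMem hxK]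
        exact Set.indicator_nonneg (fun x _ => by positivity) _
  refine le_trans ?_ h3
  rw [integral_const_mul]
  refine mul_le_mul_of_nonneg_left ?_ (Real.exp_pos _).le
  exact hK.Z_ge ((1/2:ℝ) • a)

lemma dot_lower (a x₀ : ι → ℝ) (hx : x₀ ∈ K) :
    (a ⬝ᵥ x₀) / 2 - Fintype.card ι * Real.log 2 ≤ a ⬝ᵥ bar K a := by
  have h1 := (hK.Z_lower a x₀ hx).trans (hK.Z_le a)
  have hV : 0 < (volume K).toReal := ENNReal.toReal_pos hK.vol_pos.ne' hK.vol_lt.ne
  have h2 : (1/2:ℝ) ^ Fintype.card ι * Real.exp ((a ⬝ᵥ x₀) / 2) ≤ Real.exp (a ⬝ᵥ bar K a) := by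
    have : (1/2:ℝ) ^ Fintype.card ι * Real.exp ((a ⬝ᵥ x₀) / 2) * (volume K).toReal ≤
      Real.exp (a ⬝ᵥ bar K a) * (volume K).toReal := by nlinarith
    exact le_of_mul_le_mul_right this hV
  have h3 : (1/2:ℝ) ^ Fintype.card ι = Real.exp (-(Fintype.card ι * Real.log 2)) := by
    rw [Real.exp_neg, Real.exp_nat_mul, Real.exp_log (by norm_num)]
    simp
  rw [h3, ← Real.exp_add, Real.exp_le_exp] at h2
  linarith

lemma growth_bar (r : ℝ) (hr0 : 0 < r) (hr : Metric.closedBall (0 : ι → ℝ) r ⊆ K) (a : ι → ℝ) :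
    r / 2 * ‖a‖ - Fintype.card ι * Real.log 2 ≤ a ⬝ᵥ bar K a := by
  rcases isEmpty_or_nonempty ι with h | h
  · have : a = 0 := Subsingleton.elim _ _
    subst this
    simp
  · obtain ⟨k, hk⟩ := (Finite.exists_max (fun k => ‖a k‖))
    have h2 : ‖a‖ = |a k| := by
      apply le_antisymm
      · exact (pi_norm_le_iff_of_nonneg (abs_nonneg _)).2 hk
      · exact norm_le_pi_norm a k
    set x₀ : ι → ℝ := Pi.single k (r * SignType.sign (a k)) with hx₀
    have hx : x₀ ∈ K := by
      apply hr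
      rw [mem_closedBall_zero_iff, pi_norm_le_iff_of_nonneg hr0.le]
      intro i
      by_cases hi : i = k
      · subst hi
        rw [hx₀, Pi.single_eq_same, norm_mul, Real.norm_of_nonneg hr0.le]
        have : ‖((SignType.sign (a i) : SignType) : ℝ)‖ ≤ 1 := by
          rcases lt_trichotomy (a i) 0 with h | h | h
          · simp [h]
          · simp [h]
          · simp [h]
        nlinarith
      · rw [hx₀, Pi.single_eq_of_ne hi]
        simpa using hr0.le
    have h3 := hK.dot_lower a x₀ hx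
    have h4 : a ⬝ᵥ x₀ = r * ‖a‖ := by
      rw [hx₀, dotProduct_single, h2]
      have : a k * (SignType.sign (a k) : ℝ) = |a k| := by
        rw [mul_comm]; exact sign_mul_self (a k)
      calc a k * (r * (SignType.sign (a k) : ℝ)) = r * (a k * (SignType.sign (a k) : ℝ)) := by ring
        _ = _ := by rw [this]
    rw [h4] at h3
    linarith

/-- a nonnegative continuous function, positive somewhere inside, has positive integral -/
lemma integral_pos_of (g : (ι → ℝ) → ℝ) (hg : Continuous g) (h0 : ∀ x, 0 ≤ g x)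
    (x₁ : ι → ℝ) (h1 : x₁ ∈ interior K) (h2 : 0 < g x₁) : 0 < ∫ x in K, g x := by
  rw [setIntegral_pos_iff_support_of_nonneg_ae (Filter.Eventually.of_forall h0)
    (hK.integrableOn_of_continuous g hg)]
  have ho : IsOpen ({x | 0 < g x} ∩ interior K) := (isOpen_lt continuous_const hg).inter isOpen_interior
  refine (ho.measure_pos volume ⟨x₁, h2, h1⟩).trans_le (measure_mono ?_)
  intro x hx
  exact ⟨(hx.1 : 0 < g x).ne', interior_subset hx.2⟩

lemma exists_interior_ne (u : ι → ℝ) (hu : u ≠ 0) (m : ℝ) : ∃ x ∈ interior K, u ⬝ᵥ x ≠ m := by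
  obtain ⟨x, hx⟩ := hK.int
  by_cases h : u ⬝ᵥ x = m
  · have hc : Filter.Tendsto (fun ε : ℝ => x + ε • u) (nhds 0) (nhds x) := by
      have : Continuous (fun ε : ℝ => x + ε • u) := by fun_prop
      have h2 := this.tendsto 0
      simpa using h2
    have h3 := hc.eventually (isOpen_interior.mem_nhds hx)
    obtain ⟨δ, hδ, h4⟩ := Metric.eventually_nhds_iff.1 h3
    refine ⟨x + (δ / 2) • u, h4 (by rw [dist_zero_right, Real.norm_of_nonneg (by linarith)]; linarith), ?_⟩
    rw [dotProduct_add, h, dotProduct_smul, smul_eq_mul]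
    have h5 : 0 < u ⬝ᵥ u := by
      have h6 : 0 ≤ u ⬝ᵥ u := Finset.sum_nonneg fun i _ => mul_self_nonneg _
      refine lt_of_le_of_ne h6 fun h7 => hu (dotProduct_self_eq_zero.1 h7.symm)
    have : 0 < δ / 2 * (u ⬝ᵥ u) := by positivity
    linarith
  · exact ⟨x, hx, h⟩

/-- strict monotonicity of the tilted barycentre -/
lemma bar_strictMono (a a' : ι → ℝ) (h : a ≠ a') : (a - a') ⬝ᵥ bar K a' < (a - a') ⬝ᵥ bar K a := by
  set u := a - a' with hu
  have hu0 : u ≠ 0 := sub_ne_zero.2 h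
  set m := u ⬝ᵥ bar K a' with hm
  have hZ := hK.Z_pos a
  have hZ' := hK.Z_pos a'
  have hcu := hK.cont_dot u
  -- key integral
  have hg : Continuous (fun x : ι → ℝ => (u ⬝ᵥ x - m) * (Real.exp (u ⬝ᵥ x) - Real.exp m) * Real.exp (a' ⬝ᵥ x)) := by
    have := hK.cont_dot a'
    fun_prop
  have h0 : ∀ x : ι → ℝ, 0 ≤ (u ⬝ᵥ x - m) * (Real.exp (u ⬝ᵥ x) - Real.exp m) * Real.exp (a' ⬝ᵥ x) := by
    intro x
    refine mul_nonneg ?_ (Real.exp_pos _).le
    rcases le_total (u ⬝ᵥ x) m with h1 | h1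
    · exact mul_nonneg_of_nonpos_of_nonpos (by linarith) (by linarith [Real.exp_le_exp.2 h1])
    · exact mul_nonneg (by linarith) (by linarith [Real.exp_le_exp.2 h1])
  obtain ⟨x₁, hx₁, hne⟩ := hK.exists_interior_ne u hu0 m
  have h2 : 0 < (u ⬝ᵥ x₁ - m) * (Real.exp (u ⬝ᵥ x₁) - Real.exp m) * Real.exp (a' ⬝ᵥ x₁) := by
    refine mul_pos ?_ (Real.exp_pos _)
    rcases lt_or_gt_of_ne hne with h1 | h1
    · exact mul_pos_of_neg_of_neg (by linarith) (by linarith [Real.exp_lt_exp.2 h1])
    · exact mul_pos (by linarith) (by linarith [Real.exp_lt_exp.2 h1])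
  have h3 := hK.integral_pos_of _ hg h0 x₁ hx₁ h2
  have h4 : ∫ x in K, (u ⬝ᵥ x - m) * (Real.exp (u ⬝ᵥ x) - Real.exp m) * Real.exp (a' ⬝ᵥ x) =
      (J K (fun x => u ⬝ᵥ x) a - m * J K (fun _ => 1) a)
        - Real.exp m * (J K (fun x => u ⬝ᵥ x) a' - m * J K (fun _ => 1) a') := by
    unfold J
    rw [← integral_const_mul, ← integral_const_mul, ← integral_sub, ← integral_sub, ← integral_const_mul,
      ← integral_sub]
    · congr 1
      funext x
      have : Real.exp (a ⬝ᵥ x) = Real.exp (u ⬝ᵥ x) * Real.exp (a' ⬝ᵥ x) := by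
        rw [← Real.exp_add, ← add_dotProduct]
        congr 2
        rw [hu]; abel
      rw [this]
      ring
    · exact (hK.integrable_w _ hcu a).sub ((hK.integrable_w (fun _ => 1) continuous_const a).const_mul _)
    · exact ((hK.integrable_w _ hcu a').sub
        ((hK.integrable_w (fun _ => 1) continuous_const a').const_mul _)).const_mul _
    · exact hK.integrable_w _ hcu a'
    · exact (hK.integrable_w (fun _ => 1) continuous_const a').const_mul _
    · exact hK.integrable_w _ hcu a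
    · exact (hK.integrable_w (fun _ => 1) continuous_const a).const_mul _
  have h5 : J K (fun x => u ⬝ᵥ x) a' - m * J K (fun _ => 1) a' = 0 := by
    rw [hm, hK.dot_bar]
    unfold q
    rw [div_mul_cancel₀ _ hZ'.ne', sub_self]
  rw [h4, h5, mul_zero, sub_zero] at h3
  rw [hK.dot_bar u a]
  unfold q
  rw [lt_div_iff₀ hZ]
  linarith

end CB

end Pool.Agent.H845R2
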