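import Pool.Agent.H24.Lib.R_seed8.H845R2.LL3

set_option autoImplicit false
set_option linter.unusedSectionVars false
open Finset MeasureTheory Matrix

namespace Pool.Agent.H845R2

variable {ι : Type*} [Fintype ι] [DecidableEq ι]

/-- covariance matrix of the tilted measure -/
noncomputable def Hm (K : Set (ι → ℝ)) (a : ι → ℝ) : Matrix ι ι ℝ := Matrix.of fun l k =>
  q K (fun x => x l * x k) a - q K (fun x => x k) a * q K (fun x => x l) a

namespace CB

variable {K : Set (ι → ℝ)} (hK : CB K)
include hK

lemma hasFDerivAt_bar_apply (k : ι) (a : ι → ℝ) : HasFDerivAt (fun a => bar K a k)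
    (∑ l, Hm K a l k • ContinuousLinearMap.proj (R := ℝ) (φ := fun _ : ι => ℝ) l) a :=
  hK.hasFDerivAt_q (fun x => x k) (continuous_apply k) a

/-- third order terms -/
noncomputable def _root_.Pool.Agent.H845R2.Tm (K : Set (ι → ℝ)) (l j k : ι) (a : ι → ℝ) : ℝ :=
  (q K (fun x => x l * (x j * x k)) a - q K (fun x => x j * x k) a * q K (fun x => x l) a)
    - (q K (fun x => x k) a * (q K (fun x => x l * x j) a - q K (fun x => x j) a * q K (fun x => x l) a)
      + q K (fun x => x j) a * (q K (fun x => x l * x k) a - q K (fun x => x k) a * q K (fun x => x l) a))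

lemma hasFDerivAt_Hm (j k : ι) (a : ι → ℝ) : HasFDerivAt (fun a => Hm K a j k)
    (∑ l, Tm K l j k a • ContinuousLinearMap.proj (R := ℝ) (φ := fun _ : ι => ℝ) l) a := by
  have h1 := hK.hasFDerivAt_q (fun x => x j * x k) ((continuous_apply j).mul (continuous_apply k)) a
  have h2 := hK.hasFDerivAt_q (fun x => x k) (continuous_apply k) a
  have h3 := hK.hasFDerivAt_q (fun x => x j) (continuous_apply j) a
  have h4 := h1.sub (h2.mul h3)
  refine h4.congr_fderiv ?_
  ext p
  simp only [_root_.add_apply, _root_.smul_apply, _root_.sum_apply, _root_.sub_apply, smul_eq_mul,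
    ContinuousLinearMap.proj_apply, Finset.mul_sum, ← Finset.sum_add_distrib,
    ← Finset.sum_sub_distrib]
  refine Finset.sum_congr rfl fun l _ => ?_
  unfold Tm
  ring

lemma abs_coord_le (R : ℝ) (hR : ∀ x ∈ K, ‖x‖ ≤ R) (x : ι → ℝ) (hx : x ∈ K) (k : ι) : |x k| ≤ R :=
  (norm_le_pi_norm x k).trans (hR x hx)

/-- the field `∇Λ / 2` -/
noncomputable def fld : Fld ι :=
  let R := Classical.choose hK.exists_R
  let hR := Classical.choose_spec hK.exists_R
  let r := Classical.choose hK.exists_r
  let hr := Classical.choose_spec hK.exists_r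
  have q1 : ∀ k a, |q K (fun x => x k) a| ≤ R := fun k a =>
    hK.q_abs_le _ (continuous_apply k) R (fun x hx => hK.abs_coord_le R hR.2 x hx k) a
  have q2 : ∀ j k a, |q K (fun x => x j * x k) a| ≤ R ^ 2 := fun j k a =>
    hK.q_abs_le _ ((continuous_apply j).mul (continuous_apply k)) _ (fun x hx => by
      change |x j * x k| ≤ _
      rw [abs_mul, sq]
      exact mul_le_mul (hK.abs_coord_le R hR.2 x hx j) (hK.abs_coord_le R hR.2 x hx k) (abs_nonneg _)
        (by linarith [hR.1])) a
  have q3 : ∀ l j k a, |q K (fun x => x l * (x j * x k)) a| ≤ R ^ 3 := fun l j k a =>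
    hK.q_abs_le _ ((continuous_apply l).mul ((continuous_apply j).mul (continuous_apply k))) _
      (fun x hx => by
        have hR0 : 0 ≤ R := by linarith [hR.1]
        change |x l * (x j * x k)| ≤ _
        rw [abs_mul, abs_mul, show R ^ 3 = R * (R * R) by ring]
        exact mul_le_mul (hK.abs_coord_le R hR.2 x hx l)
          (mul_le_mul (hK.abs_coord_le R hR.2 x hx j) (hK.abs_coord_le R hR.2 x hx k) (abs_nonneg _) hR0)
          (by positivity) hR0) a
  { v := fun k a => bar K a k / 2
    h := fun j k a => Hm K a j k / 2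
    t := fun l j k a => Tm K l j k a / 2
    hv := by
      intro k x
      have h1 := (hK.hasFDerivAt_bar_apply k x).const_mul (1/2 : ℝ)
      have h2 : (fun a => bar K a k / 2) = fun a => (1/2 : ℝ) * bar K a k := by
        funext a; ring
      rw [h2]
      refine h1.congr_fderiv ?_
      rw [Finset.smul_sum]
      refine Finset.sum_congr rfl fun j _ => ?_
      rw [smul_smul]
      congr 1
      ring
    hh := by
      intro j k x
      have h1 := (hK.hasFDerivAt_Hm j k x).const_mul (1/2 : ℝ)
      have h2 : (fun a => Hm K a j k / 2) = fun a => (1/2 : ℝ) * Hm K a j k := by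
        funext a; ring
      rw [h2]
      refine h1.congr_fderiv ?_
      rw [Finset.smul_sum]
      refine Finset.sum_congr rfl fun j _ => ?_
      rw [smul_smul]
      congr 1
      ring
    symm := by
      intro l j k x
      have e1 : (fun x : ι → ℝ => x l * (x j * x k)) = fun x => x j * (x l * x k) := by
        funext x; ring
      have e2 : (fun x : ι → ℝ => x l * x j) = fun x => x j * x l := by
        funext x; ring
      unfold Tm
      simp only [e1, e2]
      ring
    C := 3 * R ^ 3 + Fintype.card ι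
    hC := by
      have h1 : (1:ℝ) ≤ R ^ 3 := one_le_pow₀ hR.1
      have h2 : (0:ℝ) ≤ Fintype.card ι := by positivity
      linarith
    bv := by
      intro k x
      have h1 := q1 k x
      have h2 : R ≤ R ^ 3 := le_self_pow₀ hR.1 (by norm_num)
      have h3 : (0:ℝ) ≤ Fintype.card ι := by positivity
      have h4 : |bar K x k / 2| = |q K (fun x => x k) x| / 2 := by
        rw [abs_div]; simp [bar]
      rw [h4]
      linarith [hR.1]
    bh := by
      intro j k x
      have h1 := q2 j k x
      have h2 := q1 j x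
      have h3 := q1 k x
      have hR1 := hR.1
      have h4 : R ^ 2 ≤ R ^ 3 := pow_le_pow_right₀ hR.1 (by norm_num)
      have h5 : (0:ℝ) ≤ Fintype.card ι := by positivity
      have h6 : |Hm K x j k| ≤ R ^ 2 + R * R := by
        unfold Hm
        refine (abs_sub _ _).trans (add_le_add h1 ?_)
        rw [abs_mul]
        exact mul_le_mul h3 h2 (abs_nonneg _) (by linarith)
      rw [abs_div, abs_of_pos (by norm_num : (0:ℝ) < 2)]
      nlinarith
    bt := by
      intro l j k x
      have hR1 := hR.1
      have hR0 : 0 ≤ R := by linarith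
      have h5 : (0:ℝ) ≤ Fintype.card ι := by positivity
      have m1 : ∀ (A B : ℝ), |A| ≤ R ^ 2 → |B| ≤ R → |A * B| ≤ R ^ 3 := by
        intro A B hA hB
        rw [abs_mul, show R ^ 3 = R ^ 2 * R by ring]
        exact mul_le_mul hA hB (abs_nonneg _) (by positivity)
      have m2 : ∀ (A B : ℝ), |A| ≤ R → |B| ≤ R → |A * B| ≤ R ^ 2 := by
        intro A B hA hB
        rw [abs_mul, sq]
        exact mul_le_mul hA hB (abs_nonneg _) hR0
      have a1 := q3 l j k x
      have a2 := m1 _ _ (q2 j k x) (q1 l x)
      have a3 := m1 _ _ (q2 l j x) (q1 k x)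
      have a4 := m1 _ _ (q2 l k x) (q1 j x)
      have a5 := m1 _ _ (m2 _ _ (q1 j x) (q1 l x)) (q1 k x)
      have a6 := m1 _ _ (m2 _ _ (q1 k x) (q1 l x)) (q1 j x)
      have h6 : |Tm K l j k x| ≤ 6 * R ^ 3 := by
        unfold Tm
        rw [abs_le] at *
        constructor <;> linarith [a1.1, a1.2, a2.1, a2.2, a3.1, a3.2, a4.1, a4.2, a5.1, a5.2, a6.1, a6.2]
      rw [abs_div, abs_of_pos (by norm_num : (0:ℝ) < 2)]
      linarith
    c := r / 4
    hc := by
      have := hr.1
      positivity
    growth := by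
      intro x
      have h1 := hK.growth_bar r hr.1 hr.2 x
      have h2 : (1:ℝ) ≤ R ^ 3 := one_le_pow₀ hR.1
      have h3 : ∑ k, x k * (bar K x k / 2) = (x ⬝ᵥ bar K x) / 2 := by
        unfold dotProduct
        rw [Finset.sum_div]
        exact Finset.sum_congr rfl fun k _ => by ring
      rw [h3]
      have h4 : (0:ℝ) ≤ Fintype.card ι := by positivity
      have h5 : Real.log 2 ≤ 1 := by
        have := Real.log_two_lt_d9
        linarith
      have h6 : Fintype.card ι * Real.log 2 ≤ Fintype.card ι := by nlinarith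
      nlinarith }

/-- the lower bound for the log-Laplace field -/
theorem key : (2 * Real.pi) ^ Fintype.card ι ≤
    ∫ x : Fld.PP ι, Real.exp (-((x.1 ⬝ᵥ bar K x.1) + x.2 ⬝ᵥ bar K x.2) / 2) *
      ((1/2:ℝ) ^ Fintype.card ι * |(Hm K x.1 + Hm K x.2).det|)
      ∂((volume : Measure (ι → ℝ)).prod volume) := by
  have h1 := hK.fld.main_lower
  refine h1.trans (le_of_eq ?_)
  congr 1
  funext x
  have e1 : ∀ a : ι → ℝ, ∑ k, a k * hK.fld.v k a = (a ⬝ᵥ bar K a) / 2 := by
    intro a
    change ∑ k, a k * (bar K a k / 2) = _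
    unfold dotProduct
    rw [Finset.sum_div]
    exact Finset.sum_congr rfl fun k _ => by ring
  rw [e1, e1]
  have e2 : (Matrix.of fun j k => hK.fld.h j k x.1 + hK.fld.h j k x.2) = (1/2:ℝ) • (Hm K x.1 + Hm K x.2) := by
    ext j k
    change Hm K x.1 j k / 2 + Hm K x.2 j k / 2 = (1/2:ℝ) * (Hm K x.1 j k + Hm K x.2 j k)
    ring
  rw [e2, Matrix.det_smul, abs_mul, abs_of_pos (by positivity)]
  congr 2
  ring

end CB

end Pool.Agent.H845R2
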