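import Pool.Agent.H24.Lib.R_seed8.H845R2.LL4

set_option autoImplicit false
set_option linter.unusedSectionVars false
open Finset MeasureTheory Matrix
open scoped ENNReal

namespace Pool.Agent.H845R2

variable {ι : Type*} [Fintype ι] [DecidableEq ι]

lemma lintegral_smul_pi (c : ℝ) (hc : c ≠ 0) (g : (ι → ℝ) → ℝ≥0∞) (hg : Measurable g) :
    ∫⁻ x, g (c • x) = ENNReal.ofReal |(c ^ Fintype.card ι)⁻¹| * ∫⁻ x, g x := by
  have h1 : ∫⁻ x, g (c • x) = ∫⁻ x, g x ∂(Measure.map (fun x => c • x) volume) := by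
    rw [lintegral_map hg (measurable_const_smul c)]
  rw [h1]
  have h2 := Measure.map_addHaar_smul (volume : Measure (ι → ℝ)) hc
  rw [Module.finrank_pi] at h2
  change Measure.map (fun x => c • x) volume = _ at h2
  rw [h2, lintegral_smul_measure, smul_eq_mul]

/-- derivative of the barycentre map -/
noncomputable def barD (K : Set (ι → ℝ)) (a : ι → ℝ) : (ι → ℝ) →L[ℝ] (ι → ℝ) :=
  ContinuousLinearMap.pi fun k =>
    ∑ l, Hm K a l k • ContinuousLinearMap.proj (R := ℝ) (φ := fun _ : ι => ℝ) l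

lemma barD_eq (K : Set (ι → ℝ)) (a : ι → ℝ) :
    ((barD K a : (ι → ℝ) →L[ℝ] (ι → ℝ)) : (ι → ℝ) →ₗ[ℝ] (ι → ℝ)) = Matrix.toLin' (Hm K a)ᵀ := by
  ext p k
  simp [barD, Matrix.mulVec, dotProduct, Pi.single_apply]

namespace CB

variable {K : Set (ι → ℝ)} (hK : CB K)
include hK

lemma hasFDerivAt_bar (a : ι → ℝ) : HasFDerivAt (bar K) (barD K a) a := by
  unfold barD
  rw [hasFDerivAt_pi]
  intro k
  exact hK.hasFDerivAt_bar_apply k a

lemma continuous_bar : Continuous (bar K) :=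
  continuous_iff_continuousAt.2 fun a => (hK.hasFDerivAt_bar a).continuousAt

lemma continuous_Hm : Continuous (Hm K) := by
  refine continuous_pi fun j => continuous_pi fun k => ?_
  exact continuous_iff_continuousAt.2 fun a => (hK.hasFDerivAt_Hm j k a).continuousAt

lemma continuous_Z : Continuous (J K (fun _ => 1)) :=
  continuous_iff_continuousAt.2 fun a => (hK.hasFDerivAt_J _ continuous_const a).continuousAt

/-- injectivity of `b ↦ (bar (2X - b) - bar b)/2` -/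
lemma sumMap_injective (X : ι → ℝ) :
    Function.Injective (fun b : ι → ℝ => (1/2:ℝ) • (bar K ((2:ℝ) • X - b) - bar K b)) := by
  intro b b' h
  by_contra hne
  simp only at h
  have h1 : bar K ((2:ℝ) • X - b) - bar K b = bar K ((2:ℝ) • X - b') - bar K b' :=
    smul_right_injective _ (by norm_num : (1/2:ℝ) ≠ 0) h
  have h2 := hK.bar_strictMono b b' hne
  have hne2 : (2:ℝ) • X - b' ≠ (2:ℝ) • X - b := by
    intro h3
    apply hne
    have := sub_right_injective h3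
    exact this.symm
  have h3 := hK.bar_strictMono _ _ hne2
  have h4 : (2:ℝ) • X - b' - ((2:ℝ) • X - b) = b - b' := by abel
  rw [h4] at h3
  have h5 := congrArg (fun v => (b - b') ⬝ᵥ v) h1
  simp only [dotProduct_sub] at h5
  linarith

lemma sumMap_mem (X b : ι → ℝ) : (1/2:ℝ) • (bar K ((2:ℝ) • X - b) - bar K b) ∈ K := by
  rw [sub_eq_add_neg]
  exact hK.mid_mem (hK.bar_mem _) (hK.symm _ (hK.bar_mem _))

lemma lintegral_det_le (X : ι → ℝ) :
    ∫⁻ b : ι → ℝ, ENNReal.ofReal ((1/2:ℝ) ^ Fintype.card ι * |(Hm K ((2:ℝ) • X - b) + Hm K b).det|)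
      ≤ volume K := by
  set F : (ι → ℝ) → (ι → ℝ) := fun b => (1/2:ℝ) • (bar K ((2:ℝ) • X - b) - bar K b) with hF
  set F' : (ι → ℝ) → ((ι → ℝ) →L[ℝ] (ι → ℝ)) := fun b =>
    (1/2:ℝ) • (-(barD K ((2:ℝ) • X - b)) - barD K b) with hF'
  have hd : ∀ b ∈ (Set.univ : Set (ι → ℝ)), HasFDerivWithinAt F (F' b) Set.univ b := by
    intro b _
    rw [hasFDerivWithinAt_univ]
    have h1 : HasFDerivAt (fun b : ι → ℝ => (2:ℝ) • X - b) (-(ContinuousLinearMap.id ℝ (ι → ℝ))) b :=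
      (hasFDerivAt_id b).const_sub _
    have h2 := (hK.hasFDerivAt_bar ((2:ℝ) • X - b)).comp b h1
    have h3 := (h2.sub (hK.hasFDerivAt_bar b)).const_smul (1/2:ℝ)
    refine h3.congr_fderiv ?_
    rw [hF']
    congr 2
    ext p
    simp
  have h4 := lintegral_abs_det_fderiv_eq_addHaar_image volume MeasurableSet.univ hd
    (hK.sumMap_injective X).injOn
  have h5 : ∀ b, |(F' b).det| = (1/2:ℝ) ^ Fintype.card ι * |(Hm K ((2:ℝ) • X - b) + Hm K b).det| := by
    intro b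
    have h6 : ((F' b : (ι → ℝ) →L[ℝ] (ι → ℝ)) : (ι → ℝ) →ₗ[ℝ] (ι → ℝ)) =
        Matrix.toLin' ((-(1/2:ℝ)) • (Hm K ((2:ℝ) • X - b) + Hm K b)ᵀ) := by
      have e1 := barD_eq K ((2:ℝ) • X - b)
      have e2 := barD_eq K b
      rw [hF']
      have e3 : (((1/2:ℝ) • (-(barD K ((2:ℝ) • X - b)) - barD K b) : (ι → ℝ) →L[ℝ] (ι → ℝ)) :
          (ι → ℝ) →ₗ[ℝ] (ι → ℝ)) = (1/2:ℝ) • (-(barD K ((2:ℝ) • X - b) : (ι → ℝ) →ₗ[ℝ] (ι → ℝ))
            - (barD K b : (ι → ℝ) →ₗ[ℝ] (ι → ℝ))) := rfl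
      change (((1/2:ℝ) • (-(barD K ((2:ℝ) • X - b)) - barD K b) : (ι → ℝ) →L[ℝ] (ι → ℝ)) :
          (ι → ℝ) →ₗ[ℝ] (ι → ℝ)) = _
      rw [e3, e1, e2, Matrix.transpose_add, smul_add, map_add, map_smul, map_smul]
      module
    change |LinearMap.det ((F' b : (ι → ℝ) →L[ℝ] (ι → ℝ)) : (ι → ℝ) →ₗ[ℝ] (ι → ℝ))| = _
    rw [h6, LinearMap.det_toLin', Matrix.det_smul, Matrix.det_transpose, abs_mul, abs_pow, abs_neg,
      abs_of_pos (by norm_num : (0:ℝ) < 1/2)]
  simp_rw [h5] at h4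
  rw [setLIntegral_univ] at h4
  rw [h4]
  refine measure_mono ?_
  rintro _ ⟨b, -, rfl⟩
  exact hK.sumMap_mem X b

/-- normalised inverse Laplace transform -/
noncomputable def _root_.Pool.Agent.H845R2.rho (K : Set (ι → ℝ)) (X : ι → ℝ) : ℝ :=
  (volume K).toReal / J K (fun _ => 1) X

lemma rho_nonneg (X : ι → ℝ) : 0 ≤ rho K X := div_nonneg ENNReal.toReal_nonneg (hK.Z_pos X).le

lemma continuous_rho : Continuous (rho K) :=
  continuous_const.div hK.continuous_Z fun X => (hK.Z_pos X).ne'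

lemma rho_mid (a b : ι → ℝ) :
    Real.exp (-((a ⬝ᵥ bar K a) + b ⬝ᵥ bar K b) / 2) ≤ rho K ((1/2:ℝ) • (a + b)) := by
  have hV : 0 < (volume K).toReal := ENNReal.toReal_pos hK.vol_pos.ne' hK.vol_lt.ne
  have h1 := hK.Z_mid a b
  have h2 := hK.Z_le a
  have h3 := hK.Z_le b
  have hA := hK.Z_pos a
  have hB := hK.Z_pos b
  have hM := hK.Z_pos ((1/2:ℝ) • (a + b))
  have h4 : J K (fun _ => 1) ((1/2:ℝ) • (a + b)) ≤
      (volume K).toReal * Real.exp (((a ⬝ᵥ bar K a) + b ⬝ᵥ bar K b) / 2) := by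
    refine h1.trans ?_
    rw [Real.sqrt_le_left (by positivity)]
    calc J K (fun _ => 1) a * J K (fun _ => 1) b ≤
        ((volume K).toReal * Real.exp (a ⬝ᵥ bar K a)) * ((volume K).toReal * Real.exp (b ⬝ᵥ bar K b)) :=
          mul_le_mul h2 h3 hB.le (by positivity)
      _ = ((volume K).toReal * Real.exp (((a ⬝ᵥ bar K a) + b ⬝ᵥ bar K b) / 2)) ^ 2 := by
          rw [mul_pow, ← Real.exp_nat_mul]
          have : ((2:ℕ):ℝ) * (((a ⬝ᵥ bar K a) + b ⬝ᵥ bar K b) / 2) = (a ⬝ᵥ bar K a) + b ⬝ᵥ bar K b := by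
            push_cast; ring
          rw [this, Real.exp_add]
          ring
  unfold rho
  rw [le_div_iff₀ hM]
  calc Real.exp (-((a ⬝ᵥ bar K a) + b ⬝ᵥ bar K b) / 2) * J K (fun _ => 1) ((1/2:ℝ) • (a + b))
      ≤ Real.exp (-((a ⬝ᵥ bar K a) + b ⬝ᵥ bar K b) / 2) *
        ((volume K).toReal * Real.exp (((a ⬝ᵥ bar K a) + b ⬝ᵥ bar K b) / 2)) :=
          mul_le_mul_of_nonneg_left h4 (Real.exp_pos _).le
    _ = (volume K).toReal * (Real.exp (-((a ⬝ᵥ bar K a) + b ⬝ᵥ bar K b) / 2) *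
          Real.exp (((a ⬝ᵥ bar K a) + b ⬝ᵥ bar K b) / 2)) := by ring
    _ = (volume K).toReal := by
        rw [← Real.exp_add]
        have : -((a ⬝ᵥ bar K a) + b ⬝ᵥ bar K b) / 2 + ((a ⬝ᵥ bar K a) + b ⬝ᵥ bar K b) / 2 = 0 := by ring
        rw [this, Real.exp_zero, mul_one]

/-- the functional form of the inequality -/
theorem functional : ENNReal.ofReal (Real.pi ^ Fintype.card ι) ≤
    volume K * ∫⁻ X, ENNReal.ofReal (rho K X) := by
  set n := Fintype.card ι with hn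
  -- the two-variable integrand
  set G : (ι → ℝ) → (ι → ℝ) → ℝ≥0∞ := fun X b => ENNReal.ofReal (rho K X) *
    ENNReal.ofReal ((1/2:ℝ) ^ n * |(Hm K ((2:ℝ) • X - b) + Hm K b).det|) with hG
  have hGc : Measurable (Function.uncurry G) := by
    have h1 : Continuous (fun p : (ι → ℝ) × (ι → ℝ) => rho K p.1) := hK.continuous_rho.comp continuous_fst
    have h2 : Continuous (fun p : (ι → ℝ) × (ι → ℝ) => (Hm K ((2:ℝ) • p.1 - p.2) + Hm K p.2).det) := by
      refine Continuous.matrix_det ?_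
      exact (hK.continuous_Hm.comp (by fun_prop)).add (hK.continuous_Hm.comp continuous_snd)
    have h3 : Measurable (fun p : (ι → ℝ) × (ι → ℝ) => ENNReal.ofReal (rho K p.1) *
      ENNReal.ofReal ((1/2:ℝ) ^ n * |(Hm K ((2:ℝ) • p.1 - p.2) + Hm K p.2).det|)) := by
      have h4 : Continuous (fun p : (ι → ℝ) × (ι → ℝ) => (1/2:ℝ) ^ n * |(Hm K ((2:ℝ) • p.1 - p.2) + Hm K p.2).det|) :=
        continuous_const.mul h2.abs
      exact (h1.measurable.ennreal_ofReal).mul (h4.measurable.ennreal_ofReal)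
    exact h3
  have step1 : ∫⁻ X, ∫⁻ b, G X b ≤ (∫⁻ X, ENNReal.ofReal (rho K X)) * volume K := by
    rw [← lintegral_mul_const _ hK.continuous_rho.measurable.ennreal_ofReal]
    refine lintegral_mono fun X => ?_
    simp only [hG]
    rw [lintegral_const_mul' _ _ ENNReal.ofReal_ne_top]
    exact mul_le_mul_right (hK.lintegral_det_le X) _
  have step2 : ∫⁻ X, ∫⁻ b, G X b = ∫⁻ b, ∫⁻ X, G X b :=
    lintegral_lintegral_swap hGc.aemeasurable
  -- the function of the main estimate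
  set g : Fld.PP ι → ℝ := fun x => Real.exp (-((x.1 ⬝ᵥ bar K x.1) + x.2 ⬝ᵥ bar K x.2) / 2) *
      ((1/2:ℝ) ^ n * |(Hm K x.1 + Hm K x.2).det|) with hg
  have hgc : Continuous g := by
    have h2 : Continuous (fun p : (ι → ℝ) × (ι → ℝ) => (Hm K p.1 + Hm K p.2).det) := by
      refine Continuous.matrix_det ?_
      exact (hK.continuous_Hm.comp continuous_fst).add (hK.continuous_Hm.comp continuous_snd)
    have h3 : Continuous (fun p : (ι → ℝ) × (ι → ℝ) => p.1 ⬝ᵥ bar K p.1) := by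
      unfold dotProduct
      have := hK.continuous_bar
      fun_prop
    have h4 : Continuous (fun p : (ι → ℝ) × (ι → ℝ) => p.2 ⬝ᵥ bar K p.2) := by
      unfold dotProduct
      have := hK.continuous_bar
      fun_prop
    exact (Real.continuous_exp.comp ((h3.add h4).neg.div_const 2)).mul (continuous_const.mul h2.abs)
  have hg0 : ∀ x, 0 ≤ g x := fun x => by positivity
  have step3 : ∀ b, ENNReal.ofReal ((1/2:ℝ) ^ n) * ∫⁻ a, ENNReal.ofReal (g (a, b)) ≤ ∫⁻ X, G X b := by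
    intro b
    have hGb : Measurable (fun X => G X b) := Measurable.of_uncurry_right hGc
    have h1 : ∫⁻ a, G ((1/2:ℝ) • (a + b)) b = ENNReal.ofReal |(((1/2:ℝ)) ^ Fintype.card ι)⁻¹| * ∫⁻ X, G X b := by
      rw [← lintegral_smul_pi (1/2:ℝ) (by norm_num) _ hGb]
      exact lintegral_add_right_eq_self (fun a => G ((1/2:ℝ) • a) b) b
    have h2 : ∫⁻ a, ENNReal.ofReal (g (a, b)) ≤ ∫⁻ a, G ((1/2:ℝ) • (a + b)) b := by
      refine lintegral_mono fun a => ?_
      simp only [hG, hg]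
      have h3 : (2:ℝ) • ((1/2:ℝ) • (a + b)) - b = a := by
        rw [smul_smul]; norm_num
      rw [h3, ← ENNReal.ofReal_mul (hK.rho_nonneg _)]
      exact ENNReal.ofReal_le_ofReal (mul_le_mul_of_nonneg_right (hK.rho_mid a b) (by positivity))
    calc ENNReal.ofReal ((1/2:ℝ) ^ n) * ∫⁻ a, ENNReal.ofReal (g (a, b))
        ≤ ENNReal.ofReal ((1/2:ℝ) ^ n) * (ENNReal.ofReal |(((1/2:ℝ)) ^ Fintype.card ι)⁻¹| * ∫⁻ X, G X b) := by
          rw [← h1]; exact mul_le_mul_right h2 _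
      _ = ∫⁻ X, G X b := by
          rw [← mul_assoc, ← ENNReal.ofReal_mul (by positivity), abs_of_pos (by positivity), ← hn,
            mul_inv_cancel₀ (by positivity), ENNReal.ofReal_one, one_mul]
  have step4 : ENNReal.ofReal ((2 * Real.pi) ^ n) ≤ ∫⁻ b, ∫⁻ a, ENNReal.ofReal (g (a, b)) := by
    have h1 := ENNReal.ofReal_le_ofReal hK.key
    refine h1.trans ?_
    have h2 : ENNReal.ofReal (∫ x, g x ∂((volume : Measure (ι → ℝ)).prod volume)) ≤
        ∫⁻ x, ENNReal.ofReal (g x) ∂((volume : Measure (ι → ℝ)).prod volume) := by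
      by_cases hi : Integrable g ((volume : Measure (ι → ℝ)).prod volume)
      · rw [ofReal_integral_eq_lintegral_ofReal hi (Filter.Eventually.of_forall hg0)]
      · rw [integral_undef hi]; simp
    refine h2.trans (le_of_eq ?_)
    rw [lintegral_prod_symm' _ hgc.measurable.ennreal_ofReal]
  calc ENNReal.ofReal (Real.pi ^ n) = ENNReal.ofReal ((1/2:ℝ) ^ n) * ENNReal.ofReal ((2 * Real.pi) ^ n) := by
        rw [← ENNReal.ofReal_mul (by positivity), ← mul_pow]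
        congr 2
        ring
    _ ≤ ENNReal.ofReal ((1/2:ℝ) ^ n) * ∫⁻ b, ∫⁻ a, ENNReal.ofReal (g (a, b)) := mul_le_mul_right step4 _
    _ = ∫⁻ b, ENNReal.ofReal ((1/2:ℝ) ^ n) * ∫⁻ a, ENNReal.ofReal (g (a, b)) := by
        rw [lintegral_const_mul' _ _ ENNReal.ofReal_ne_top]
    _ ≤ ∫⁻ b, ∫⁻ X, G X b := lintegral_mono step3
    _ = ∫⁻ X, ∫⁻ b, G X b := step2.symm
    _ ≤ _ := step1
    _ = _ := mul_comm _ _

end CB

end Pool.Agent.H845R2
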