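import Pool.Agent.H24.Lib.R_seed8.H845R2.LL5

set_option autoImplicit false
set_option linter.unusedSectionVars false
open Finset MeasureTheory Matrix
open scoped ENNReal Pointwise

namespace Pool.Agent.H845R2

variable {ι : Type*} [Fintype ι] [DecidableEq ι]

/-- polar body in coordinates -/
def polc (K : Set (ι → ℝ)) : Set (ι → ℝ) := {y | ∀ x ∈ K, x ⬝ᵥ y ≤ 1}

/-- support function -/
noncomputable def hs (K : Set (ι → ℝ)) (X : ι → ℝ) : ℝ := sSup ((fun x => X ⬝ᵥ x) '' K)

namespace CB

variable {K : Set (ι → ℝ)} (hK : CB K)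
include hK

lemma hs_exists (X : ι → ℝ) : ∃ x ∈ K, X ⬝ᵥ x = hs K X ∧ ∀ y ∈ K, X ⬝ᵥ y ≤ hs K X := by
  obtain ⟨x, hx, hmax⟩ := hK.comp.exists_isMaxOn ⟨0, hK.zero_mem⟩ (hK.cont_dot X).continuousOn
  have h1 : IsGreatest ((fun x => X ⬝ᵥ x) '' K) (X ⬝ᵥ x) := by
    refine ⟨⟨x, hx, rfl⟩, ?_⟩
    rintro _ ⟨y, hy, rfl⟩
    exact hmax hy
  have h2 : hs K X = X ⬝ᵥ x := h1.csSup_eq
  exact ⟨x, hx, h2.symm, fun y hy => h2 ▸ hmax hy⟩

lemma le_hs (X : ι → ℝ) {y : ι → ℝ} (hy : y ∈ K) : X ⬝ᵥ y ≤ hs K X := by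
  obtain ⟨x, _, _, h⟩ := hK.hs_exists X
  exact h y hy

lemma hs_le (X : ι → ℝ) (c : ℝ) (h : ∀ y ∈ K, X ⬝ᵥ y ≤ c) : hs K X ≤ c := by
  obtain ⟨x, hx, he, _⟩ := hK.hs_exists X
  rw [← he]; exact h x hx

lemma hs_nonneg (X : ι → ℝ) : 0 ≤ hs K X := by
  have := hK.le_hs X hK.zero_mem
  simpa using this

lemma hs_zero : hs K 0 = 0 := le_antisymm (hK.hs_le 0 0 fun y _ => by simp) (hK.hs_nonneg 0)

lemma hs_neg (X : ι → ℝ) : hs K (-X) = hs K X := by
  apply le_antisymm
  · refine hK.hs_le _ _ fun y hy => ?_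
    have := hK.le_hs X (hK.symm y hy)
    simpa using this
  · refine hK.hs_le _ _ fun y hy => ?_
    have := hK.le_hs (-X) (hK.symm y hy)
    simpa using this

lemma hs_add (X Y : ι → ℝ) : hs K (X + Y) ≤ hs K X + hs K Y := by
  refine hK.hs_le _ _ fun y hy => ?_
  rw [add_dotProduct]
  exact add_le_add (hK.le_hs X hy) (hK.le_hs Y hy)

lemma hs_smul_le (r : ℝ) (X : ι → ℝ) : hs K (r • X) ≤ |r| * hs K X := by
  refine hK.hs_le _ _ fun y hy => ?_
  rw [smul_dotProduct, smul_eq_mul]
  have h1 : |X ⬝ᵥ y| ≤ hs K X := by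
    rw [abs_le]
    constructor
    · have := hK.le_hs X (hK.symm y hy)
      rw [dotProduct_neg] at this
      linarith
    · exact hK.le_hs X hy
  calc r * (X ⬝ᵥ y) ≤ |r * (X ⬝ᵥ y)| := le_abs_self _
    _ = |r| * |X ⬝ᵥ y| := abs_mul _ _
    _ ≤ |r| * hs K X := mul_le_mul_of_nonneg_left h1 (abs_nonneg r)

lemma hs_lower (r : ℝ) (hr0 : 0 < r) (hr : Metric.closedBall (0 : ι → ℝ) r ⊆ K) (a : ι → ℝ) :
    r * ‖a‖ ≤ hs K a := by
  rcases isEmpty_or_nonempty ι with h | h
  · have : a = 0 := Subsingleton.elim _ _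
    subst this
    simp [hK.hs_nonneg]
  · obtain ⟨k, hk⟩ := (Finite.exists_max (fun k => ‖a k‖))
    have h2 : ‖a‖ = |a k| := by
      apply le_antisymm
      · exact (pi_norm_le_iff_of_nonneg (abs_nonneg _)).2 hk
      · exact norm_le_pi_norm a k
    set x₀ : ι → ℝ := Pi.single k (r * SignType.sign (a k)) with hx₀
    have hx : x₀ ∈ K := by
      apply hr
      rw [mem_closedBall_zero_iff, pi_norm_le_iff_of_nonneg hr0.le]
      intro i
      by_cases hi : i = k
      · subst hi
        rw [hx₀, Pi.single_eq_same, norm_mul, Real.norm_of_nonneg hr0.le]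
        have : ‖((SignType.sign (a i) : SignType) : ℝ)‖ ≤ 1 := by
          rcases lt_trichotomy (a i) 0 with h | h | h
          · simp [h]
          · simp [h]
          · simp [h]
        nlinarith
      · rw [hx₀, Pi.single_eq_of_ne hi]
        simpa using hr0.le
    have h3 := hK.le_hs a hx
    have h4 : a ⬝ᵥ x₀ = r * ‖a‖ := by
      rw [hx₀, dotProduct_single, h2]
      have : a k * (SignType.sign (a k) : ℝ) = |a k| := by
        rw [mul_comm]; exact sign_mul_self (a k)
      calc a k * (r * (SignType.sign (a k) : ℝ)) = r * (a k * (SignType.sign (a k) : ℝ)) := by ring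
        _ = _ := by rw [this]
    rw [h4] at h3
    exact h3

lemma continuous_hs : Continuous (hs K) := by
  -- `hs K` is Lipschitz
  obtain ⟨R, hR1, hR⟩ := hK.exists_R
  have h1 : ∀ X Y, hs K X - hs K Y ≤ (Fintype.card ι * R) * ‖X - Y‖ := by
    intro X Y
    have h2 : hs K X ≤ hs K (X - Y) + hs K Y := by
      have := hK.hs_add (X - Y) Y
      rwa [sub_add_cancel] at this
    have h3 : hs K (X - Y) ≤ (Fintype.card ι * R) * ‖X - Y‖ := by
      refine hK.hs_le _ _ fun y hy => ?_
      unfold dotProduct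
      refine (Finset.sum_le_card_nsmul _ _ (R * ‖X - Y‖) fun j _ => ?_).trans (by simp [mul_assoc])
      have h4 := norm_le_pi_norm (X - Y) j
      have h5 := (norm_le_pi_norm y j).trans (hR y hy)
      rw [Real.norm_eq_abs] at h4 h5
      calc (X - Y) j * y j ≤ |(X - Y) j * y j| := le_abs_self _
        _ = |(X - Y) j| * |y j| := abs_mul _ _
        _ ≤ ‖X - Y‖ * R := mul_le_mul h4 h5 (abs_nonneg _) (norm_nonneg _)
        _ = _ := mul_comm _ _
    linarith
  have h6 : LipschitzWith (Real.toNNReal (Fintype.card ι * R)) (hs K) := by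
    refine LipschitzWith.of_dist_le_mul fun X Y => ?_
    rw [Real.dist_eq, dist_eq_norm, Real.coe_toNNReal _ (by positivity), abs_le]
    constructor
    · have := h1 Y X
      rw [norm_sub_rev] at this
      linarith
    · exact h1 X Y
  exact h6.continuous

lemma rho_le (X : ι → ℝ) : rho K X ≤ 2 ^ Fintype.card ι * Real.exp (-(hs K X / 2)) := by
  obtain ⟨x, hx, he, _⟩ := hK.hs_exists X
  have h1 := hK.Z_lower X x hx
  rw [he] at h1
  unfold rho
  rw [div_le_iff₀ (hK.Z_pos X)]
  have h2 : (2:ℝ) ^ Fintype.card ι * (1/2:ℝ) ^ Fintype.card ι = 1 := by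
    rw [← mul_pow]; norm_num
  have h3 : Real.exp (-(hs K X / 2)) * Real.exp (hs K X / 2) = 1 := by
    rw [← Real.exp_add]; simp
  calc (volume K).toReal = (2 ^ Fintype.card ι * (1/2:ℝ) ^ Fintype.card ι) *
        (Real.exp (-(hs K X / 2)) * Real.exp (hs K X / 2)) * (volume K).toReal := by rw [h2, h3]; ring
    _ = 2 ^ Fintype.card ι * Real.exp (-(hs K X / 2)) *
        ((1/2:ℝ) ^ Fintype.card ι * (Real.exp (hs K X / 2) * (volume K).toReal)) := by ring
    _ ≤ _ := mul_le_mul_of_nonneg_left h1 (by positivity)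

lemma integral_exp_hs : ∃ I : ℝ, Integrable (fun X => Real.exp (-(hs K X / 2))) ∧
    ∫ X, Real.exp (-(hs K X / 2)) = I ∧
    ENNReal.ofReal I ≤ (Fintype.card ι).factorial * (2 ^ Fintype.card ι * volume (polc K)) := by
  obtain ⟨r, hr0, hr⟩ := hK.exists_r
  set n := Fintype.card ι with hn
  refine ⟨_, ?_, rfl, ?_⟩
  · have h1 := integrable_poly_exp (volume : Measure (ι → ℝ)) 0 (r / 2) (by positivity)
    refine h1.mono' ?_ (Filter.Eventually.of_forall fun X => ?_)
    · have := hK.continuous_hs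
      exact (Real.continuous_exp.comp ((this.div_const 2).neg)).aestronglyMeasurable
    · rw [Real.norm_of_nonneg (Real.exp_pos _).le, pow_zero, one_mul]
      apply Real.exp_le_exp.2
      have := hK.hs_lower r hr0 hr X
      linarith
  · have h2 := measure_lt_one_eq_integral_div_gamma (volume : Measure (ι → ℝ)) (g := fun X => hs K X / 2)
      (by simp [hK.hs_zero]) (fun X => by simp [hK.hs_neg]) (fun X Y => by
        have := hK.hs_add X Y
        linarith) (fun {X} h => by
          have h3 := hK.hs_lower r hr0 hr X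
          have h4 : ‖X‖ ≤ 0 := by
            have : r * ‖X‖ ≤ 0 := by linarith
            nlinarith [norm_nonneg X]
          exact norm_le_zero_iff.1 h4) (fun c X => by
            have := hK.hs_smul_le c X
            linarith) (p := 1) one_pos
    rw [Module.finrank_pi, ← hn] at h2
    simp only [Real.rpow_one, div_one] at h2
    rw [Real.Gamma_nat_eq_factorial, ENNReal.ofReal_div_of_pos (by positivity)] at h2
    have h5 : ENNReal.ofReal (∫ X, Real.exp (-(hs K X / 2))) = n.factorial * volume {X | hs K X / 2 < 1} := by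
      rw [h2, ENNReal.ofReal_natCast, ENNReal.mul_div_cancel (by exact_mod_cast n.factorial_ne_zero)
        (ENNReal.natCast_ne_top _)]
    rw [h5]
    gcongr
    have h6 : {X | hs K X / 2 < 1} ⊆ (2:ℝ) • polc K := by
      intro X hX
      rw [Set.mem_smul_set_iff_inv_smul_mem₀ (by norm_num)]
      intro x hx
      rw [dotProduct_smul, smul_eq_mul, dotProduct_comm]
      have h7 := hK.le_hs X hx
      have h8 : hs K X / 2 < 1 := hX
      linarith
    refine (measure_mono h6).trans (le_of_eq ?_)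
    rw [Measure.addHaar_smul, Module.finrank_pi, ← hn, abs_of_pos (by positivity)]
    congr 1
    rw [ENNReal.ofReal_pow (by norm_num)]
    norm_num

/-- Bourgain-Milman inequality in coordinates (with Kuperberg type constants) -/
theorem bourgain_milman : ENNReal.ofReal (Real.pi ^ Fintype.card ι) ≤
    (4 ^ Fintype.card ι * (Fintype.card ι).factorial) * (volume K * volume (polc K)) := by
  set n := Fintype.card ι with hn
  obtain ⟨I, hi, hI, hI2⟩ := hK.integral_exp_hs
  rw [← hn] at hI2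
  have h1 := hK.functional
  have h2 : ∫⁻ X, ENNReal.ofReal (rho K X) ≤ 2 ^ n * ENNReal.ofReal I := by
    calc ∫⁻ X, ENNReal.ofReal (rho K X) ≤ ∫⁻ X, ENNReal.ofReal (2 ^ n * Real.exp (-(hs K X / 2))) :=
          lintegral_mono fun X => ENNReal.ofReal_le_ofReal (hK.rho_le X)
      _ = ENNReal.ofReal (∫ X, 2 ^ n * Real.exp (-(hs K X / 2))) := by
          rw [ofReal_integral_eq_lintegral_ofReal (hi.const_mul _)
            (Filter.Eventually.of_forall fun X => by positivity)]
      _ = 2 ^ n * ENNReal.ofReal I := by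
          rw [integral_const_mul, hI, ENNReal.ofReal_mul (by positivity), ENNReal.ofReal_pow (by norm_num)]
          norm_num
  calc ENNReal.ofReal (Real.pi ^ n) ≤ volume K * ∫⁻ X, ENNReal.ofReal (rho K X) := h1
    _ ≤ volume K * (2 ^ n * (n.factorial * (2 ^ n * volume (polc K)))) := by
        gcongr
        exact h2.trans (by gcongr)
    _ = (4 ^ n * n.factorial) * (volume K * volume (polc K)) := by
        have : (4:ℝ≥0∞) ^ n = 2 ^ n * 2 ^ n := by
          rw [← mul_pow]; norm_num
        rw [this]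
        ring

end CB

end Pool.Agent.H845R2
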