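import Pool.Agent.H24.Lib.R_seed8.H845R2.LL6

set_option autoImplicit false
set_option linter.unusedSectionVars false
open Finset MeasureTheory Matrix
open scoped ENNReal Pointwise MatrixOrder

namespace Pool.Agent.H845R2

variable {ι : Type*} [Fintype ι] [DecidableEq ι]

namespace CB

variable {K : Set (ι → ℝ)} (hK : CB K)
include hK

lemma q_quad (u a : ι → ℝ) : q K (fun x => (u ⬝ᵥ x) ^ 2) a =
    ∑ l, ∑ k, u l * (u k * q K (fun x => x l * x k) a) := by
  have h1 : (fun x : ι → ℝ => (u ⬝ᵥ x) ^ 2) = fun x => ∑ l, ∑ k, u l * (u k * (x l * x k)) := by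
    funext x
    rw [sq]
    unfold dotProduct
    rw [Finset.sum_mul_sum]
    refine Finset.sum_congr rfl fun l _ => Finset.sum_congr rfl fun k _ => ?_
    ring
  rw [h1, hK.q_sum _ _ (fun l => by fun_prop)]
  refine Finset.sum_congr rfl fun l _ => ?_
  rw [hK.q_sum _ _ (fun k => by fun_prop)]
  refine Finset.sum_congr rfl fun k _ => ?_
  rw [hK.q_smul, hK.q_smul]

/-- variance of a linear functional under the tilted measure -/
lemma var_eq (u a : ι → ℝ) : q K (fun x => (u ⬝ᵥ x - u ⬝ᵥ bar K a) ^ 2) a = u ⬝ᵥ (Hm K a *ᵥ u) := by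
  set m := u ⬝ᵥ bar K a with hm
  have hc := hK.cont_dot u
  have h1 : (fun x : ι → ℝ => (u ⬝ᵥ x - m) ^ 2) = fun x => (u ⬝ᵥ x) ^ 2 + ((-2 * m) * (u ⬝ᵥ x) + m ^ 2) := by
    funext x; ring
  rw [h1, hK.q_add _ _ (by fun_prop) (by fun_prop), hK.q_add _ _ (by fun_prop) (by fun_prop),
    hK.q_smul, hK.q_const, ← hK.dot_bar, ← hm, hK.q_quad]
  have h2 : u ⬝ᵥ (Hm K a *ᵥ u) = ∑ l, ∑ k, u l * (u k * q K (fun x => x l * x k) a) - m ^ 2 := by
    have h3 : m ^ 2 = ∑ l, ∑ k, u l * (u k * (bar K a l * bar K a k)) := by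
      rw [hm, sq]
      unfold dotProduct
      rw [Finset.sum_mul_sum]
      refine Finset.sum_congr rfl fun l _ => Finset.sum_congr rfl fun k _ => ?_
      ring
    rw [h3, ← Finset.sum_sub_distrib]
    unfold dotProduct
    refine Finset.sum_congr rfl fun l _ => ?_
    rw [← Finset.sum_sub_distrib]
    simp only [mulVec, dotProduct]
    rw [Finset.mul_sum]
    refine Finset.sum_congr rfl fun k _ => ?_
    unfold Hm bar
    simp only [of_apply]
    ring
  rw [h2]; ring

lemma Hm_symm (a : ι → ℝ) : (Hm K a).IsHermitian := by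
  ext l k
  simp only [conjTranspose_apply, star_trivial]
  unfold Hm
  simp only [of_apply]
  have e2 : (fun x : ι → ℝ => x k * x l) = fun x => x l * x k := by
    funext x; ring
  rw [e2]; ring

lemma Hm_posDef (a : ι → ℝ) : (Hm K a).PosDef := by
  refine PosDef.of_dotProduct_mulVec_pos (hK.Hm_symm a) fun u hu => ?_
  rw [star_trivial, ← hK.var_eq]
  have hZ := hK.Z_pos a
  set m := u ⬝ᵥ bar K a with hm
  have hc := hK.cont_dot u
  obtain ⟨x₁, hx₁, hne⟩ := hK.exists_interior_ne u hu m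
  unfold q
  refine div_pos ?_ hZ
  unfold J
  refine hK.integral_pos_of _ (hK.continuous_integrand _ (by fun_prop) a) (fun x => by positivity) x₁ hx₁ ?_
  have : u ⬝ᵥ x₁ - m ≠ 0 := sub_ne_zero.2 hne
  positivity

/-- normalisation of the covariance -/
lemma exists_normalise (a : ι → ℝ) : ∃ S : Matrix ι ι ℝ, S * Hm K a * Sᵀ = 1 ∧ S.det ^ 2 * (Hm K a).det = 1 := by
  have hP := hK.Hm_posDef a
  obtain ⟨B, hB⟩ := CStarAlgebra.nonneg_iff_eq_star_mul_self.mp hP.posSemidef.nonneg
  rw [star_eq_conjTranspose, conjTranspose_eq_transpose_of_trivial] at hB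
  have hdet : 0 < (Hm K a).det := hP.det_pos
  have hBd : B.det ^ 2 = (Hm K a).det := by
    rw [hB, det_mul, det_transpose, sq]
  have hB0 : B.det ≠ 0 := by
    intro h
    rw [h] at hBd
    simp only [ne_eq, OfNat.ofNat_ne_zero, not_false_eq_true, zero_pow] at hBd
    exact hdet.ne hBd
  have hBt : IsUnit Bᵀ.det := by rw [det_transpose]; exact isUnit_iff_ne_zero.2 hB0
  have hBu : IsUnit B.det := isUnit_iff_ne_zero.2 hB0
  refine ⟨(Bᵀ)⁻¹, ?_, ?_⟩
  · rw [hB, transpose_nonsing_inv, transpose_transpose, ← Matrix.mul_assoc, nonsing_inv_mul _ hBt,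
      Matrix.one_mul, mul_nonsing_inv _ hBu]
  · rw [det_nonsing_inv, det_transpose, ← hBd, Ring.inverse_eq_inv', inv_pow,
      inv_mul_cancel₀ (pow_ne_zero 2 hB0)]

/-- the mean of `|S (x - b)|^2` is the dimension -/
lemma trace_eq (a : ι → ℝ) (S : Matrix ι ι ℝ) (hS : S * Hm K a * Sᵀ = 1) :
    q K (fun x => ∑ i, (S i ⬝ᵥ x - S i ⬝ᵥ bar K a) ^ 2) a = Fintype.card ι := by
  rw [hK.q_sum _ _ (fun i => by have := hK.cont_dot (S i); fun_prop)]
  have h1 : ∀ i, q K (fun x => (S i ⬝ᵥ x - S i ⬝ᵥ bar K a) ^ 2) a = 1 := by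
    intro i
    rw [hK.var_eq]
    have h2 : (S * Hm K a * Sᵀ) i i = 1 := by rw [hS]; simp
    rw [← h2, Matrix.mul_assoc, Matrix.mul_apply]
    rfl
  simp_rw [h1]
  simp

lemma isCompact_polc : IsCompact (polc K) := by
  obtain ⟨r, hr0, hr⟩ := hK.exists_r
  have hcl : IsClosed (polc K) := by
    have : polc K = ⋂ x ∈ K, {y | x ⬝ᵥ y ≤ 1} := by
      ext y; simp [polc]
    rw [this]
    exact isClosed_biInter fun x _ => isClosed_le (hK.cont_dot x) continuous_const
  refine Metric.isCompact_of_isClosed_isBounded hcl ?_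
  refine (Metric.isBounded_closedBall (x := (0 : ι → ℝ)) (r := 1 / r)).subset fun y hy => ?_
  rw [mem_closedBall_zero_iff, le_div_iff₀ hr0, mul_comm]
  refine (hK.hs_lower r hr0 hr y).trans (hK.hs_le y 1 fun x hx => ?_)
  rw [dotProduct_comm]
  exact hy x hx

lemma polc_nhds : ∃ δ > 0, Metric.closedBall (0 : ι → ℝ) δ ⊆ polc K := by
  obtain ⟨R, hR1, hR⟩ := hK.exists_R
  refine ⟨1 / ((Fintype.card ι + 1) * R), by positivity, fun y hy x hx => ?_⟩
  rw [mem_closedBall_zero_iff] at hy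
  unfold dotProduct
  refine (Finset.sum_le_card_nsmul _ _ (R * (1 / ((Fintype.card ι + 1) * R))) fun j _ => ?_).trans ?_
  · have h4 := norm_le_pi_norm x j
    have h5 := (norm_le_pi_norm y j).trans hy
    rw [Real.norm_eq_abs] at h4 h5
    calc x j * y j ≤ |x j * y j| := le_abs_self _
      _ = |x j| * |y j| := abs_mul _ _
      _ ≤ R * (1 / ((Fintype.card ι + 1) * R)) := mul_le_mul (h4.trans (hR x hx)) h5 (abs_nonneg _) (by linarith)
  · simp only [card_univ, nsmul_eq_mul]
    have h6 : R * (1 / ((Fintype.card ι + 1) * R)) = 1 / (Fintype.card ι + 1) := by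
      field_simp
    rw [h6, mul_one_div, div_le_one (by positivity)]
    linarith

lemma polc_vol_pos : 0 < volume (polc K) := by
  obtain ⟨δ, hδ, h⟩ := hK.polc_nhds
  exact (Metric.measure_closedBall_pos volume 0 hδ).trans_le (measure_mono h)

lemma lintegral_Hm_le (A : Set (ι → ℝ)) (hA : MeasurableSet A) :
    ∫⁻ a in A, ENNReal.ofReal |(Hm K a).det| ≤ volume K := by
  have hinj : Function.Injective (bar K) := by
    intro a b h
    by_contra hne
    have := hK.bar_strictMono a b hne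
    rw [h] at this
    exact lt_irrefl _ this
  have h4 := lintegral_abs_det_fderiv_eq_addHaar_image volume hA
    (fun a _ => (hK.hasFDerivAt_bar a).hasFDerivWithinAt) hinj.injOn
  have h5 : ∀ a, |(barD K a).det| = |(Hm K a).det| := by
    intro a
    change |LinearMap.det ((barD K a : (ι → ℝ) →L[ℝ] (ι → ℝ)) : (ι → ℝ) →ₗ[ℝ] (ι → ℝ))| = _
    rw [barD_eq, LinearMap.det_toLin', Matrix.det_transpose]
  simp_rw [h5] at h4
  rw [h4]
  refine measure_mono ?_
  rintro _ ⟨b, -, rfl⟩
  exact hK.bar_mem b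

/-- existence of a good tilt -/
lemma exists_tilt (s : ℝ) (hs0 : 0 < s) : ∃ ξ ∈ s • polc K,
    ENNReal.ofReal (Hm K ξ).det * volume (s • polc K) ≤ volume K := by
  have hc : IsCompact (s • polc K) := hK.isCompact_polc.smul s
  have hne : (s • polc K).Nonempty := ⟨0, by
    rw [Set.mem_smul_set_iff_inv_smul_mem₀ hs0.ne', smul_zero]
    intro x _; simp⟩
  obtain ⟨ξ, hξ, hmin⟩ := hc.exists_isMinOn hne (Continuous.matrix_det hK.continuous_Hm).continuousOn
  refine ⟨ξ, hξ, le_trans ?_ (hK.lintegral_Hm_le (s • polc K) hc.measurableSet)⟩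
  rw [← setLIntegral_const]
  refine setLIntegral_mono' hc.measurableSet fun a ha => ?_
  exact ENNReal.ofReal_le_ofReal ((hmin ha).trans (le_abs_self _))

end CB

end Pool.Agent.H845R2
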