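import Pool.Agent.H24.Lib.R_seed8.H845R2.MP1

set_option autoImplicit false
set_option linter.unusedSectionVars false
open Finset MeasureTheory Matrix
open scoped ENNReal Pointwise

namespace Pool.Agent.H845R2

variable {ι : Type*} [Fintype ι] [DecidableEq ι]

namespace CB

variable {K : Set (ι → ℝ)} (hK : CB K)
include hK

lemma bm_real : Real.pi ^ Fintype.card ι ≤
    4 ^ Fintype.card ι * (Fintype.card ι).factorial * ((volume K).toReal * (volume (polc K)).toReal) := by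
  have h := hK.bourgain_milman
  have h1 : volume (polc K) ≠ ⊤ := hK.isCompact_polc.measure_lt_top.ne
  have h2 : volume K ≠ ⊤ := hK.vol_lt.ne
  have h3 := ENNReal.toReal_mono (by
    refine ENNReal.mul_ne_top (ENNReal.mul_ne_top (by simp) (by simp)) (ENNReal.mul_ne_top h2 h1)) h
  rw [ENNReal.toReal_ofReal (by positivity)] at h3
  simpa [ENNReal.toReal_mul] using h3

/-- mass of the covariance ellipsoid -/
lemma mass (S : Matrix ι ι ℝ) (a : ι → ℝ) (hS : S * Hm K a * Sᵀ = 1) (hn : 0 < Fintype.card ι)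
    (ha : ∀ x ∈ K, a ⬝ᵥ x ≤ Fintype.card ι) :
    (volume K).toReal ≤ 2 * Real.exp (Fintype.card ι) *
      (volume {x ∈ K | ∑ i, (S i ⬝ᵥ x - S i ⬝ᵥ bar K a) ^ 2 ≤ 2 * Fintype.card ι}).toReal := by
  set n := Fintype.card ι with hn'
  have hn0 : (0:ℝ) < n := by exact_mod_cast hn
  set w : (ι → ℝ) → ℝ := fun x => ∑ i, (S i ⬝ᵥ x - S i ⬝ᵥ bar K a) ^ 2 with hw
  have hwc : Continuous w := by
    refine continuous_finsetSum _ fun i _ => ?_
    have := hK.cont_dot (S i)
    fun_prop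
  have hw0 : ∀ x, 0 ≤ w x := fun x => Finset.sum_nonneg fun i _ => sq_nonneg _
  have hq : q K w a = n := hK.trace_eq a S hS
  have hZ := hK.Z_pos a
  set A : Set (ι → ℝ) := {x ∈ K | w x ≤ 2 * n} with hA
  have hAm : MeasurableSet A := hK.meas.inter (isClosed_le hwc continuous_const).measurableSet
  have hAK : A ⊆ K := fun x hx => hx.1
  have hAfin : volume A ≠ ⊤ := ((measure_mono hAK).trans_lt hK.vol_lt).ne
  have hi1 : IntegrableOn (fun x : ι → ℝ => 1 * Real.exp (a ⬝ᵥ x)) K :=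
    hK.integrable_w (fun _ => 1) continuous_const a
  have hJ : J K (fun _ => 1) a = (∫ x in A, 1 * Real.exp (a ⬝ᵥ x)) + ∫ x in K \ A, 1 * Real.exp (a ⬝ᵥ x) := by
    unfold J
    rw [← setIntegral_union Set.disjoint_sdiff_right (hK.meas.diff hAm) (hi1.mono_set hAK)
      (hi1.mono_set Set.sdiff_subset), Set.union_sdiff_cancel hAK]
  have h2 : ∫ x in K \ A, 1 * Real.exp (a ⬝ᵥ x) ≤ J K (fun _ => 1) a / 2 := by
    have h3 : ∫ x in K \ A, 1 * Real.exp (a ⬝ᵥ x) ≤ ∫ x in K \ A, (1 / (2 * n)) * (w x * Real.exp (a ⬝ᵥ x)) := by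
      refine setIntegral_mono_on (hi1.mono_set Set.sdiff_subset)
        (((hK.integrable_w w hwc a).mono_set Set.sdiff_subset).const_mul _) (hK.meas.diff hAm) fun x hx => ?_
      have h4 : 2 * n < w x := by
        by_contra h5
        exact hx.2 ⟨hx.1, not_lt.1 h5⟩
      have h5 : 1 ≤ (1 / (2 * n)) * w x := by
        rw [one_div, inv_mul_eq_div, le_div_iff₀ (by positivity)]
        linarith
      calc 1 * Real.exp (a ⬝ᵥ x) ≤ ((1 / (2 * n)) * w x) * Real.exp (a ⬝ᵥ x) :=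
            mul_le_mul_of_nonneg_right h5 (Real.exp_pos _).le
        _ = _ := by ring
    have h4 : ∫ x in K \ A, (1 / (2 * n)) * (w x * Real.exp (a ⬝ᵥ x)) ≤
        ∫ x in K, (1 / (2 * n)) * (w x * Real.exp (a ⬝ᵥ x)) := by
      refine setIntegral_mono_set ((hK.integrable_w w hwc a).const_mul _) ?_
        (Set.sdiff_subset.eventuallyLE)
      exact Filter.Eventually.of_forall fun x => by have := hw0 x; positivity
    refine h3.trans (h4.trans (le_of_eq ?_))
    rw [integral_const_mul]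
    change 1 / (2 * (n:ℝ)) * J K w a = _
    have h5 : J K w a = n * J K (fun _ => 1) a := by
      rw [← hq]; unfold q; rw [div_mul_cancel₀ _ hZ.ne']
    rw [h5]
    field_simp
  have h6 : ∫ x in A, 1 * Real.exp (a ⬝ᵥ x) ≤ Real.exp n * (volume A).toReal := by
    have h7 : ∫ x in A, 1 * Real.exp (a ⬝ᵥ x) ≤ ∫ x in A, Real.exp n := by
      refine setIntegral_mono_on (hi1.mono_set hAK) ?_ hAm fun x hx => ?_
      · exact integrableOn_const hAfin
      · rw [one_mul]; exact Real.exp_le_exp.2 (ha x hx.1)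
    refine h7.trans (le_of_eq ?_)
    rw [setIntegral_const, smul_eq_mul, mul_comm]
    rfl
  have h8 := hK.Z_ge a
  nlinarith

/-- existence of a Milman position -/
theorem milman_position (hn : 0 < Fintype.card ι) : ∃ S : Matrix ι ι ℝ, S.det ≠ 0 ∧
    (Real.pi / 4) ^ Fintype.card ι ≤ ((volume (S.mulVec '' K)).toReal) ^ 2 ∧
    (volume (S.mulVec '' K)).toReal ≤ 2 * Real.exp (Fintype.card ι) * 2 ^ Fintype.card ι *
      (volume (S.mulVec '' K ∩ {y | y ⬝ᵥ y ≤ 2 * Fintype.card ι})).toReal := by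
  set n := Fintype.card ι with hn'
  have hn0 : (0:ℝ) < n := by exact_mod_cast hn
  obtain ⟨ξ, hξ, hvol⟩ := hK.exists_tilt n hn0
  obtain ⟨S, hS, hdet⟩ := hK.exists_normalise ξ
  have hHd : 0 < (Hm K ξ).det := (hK.Hm_posDef ξ).det_pos
  have hSd : S.det ≠ 0 := by
    intro h
    rw [h] at hdet
    simp at hdet
  have ha : ∀ x ∈ K, ξ ⬝ᵥ x ≤ n := by
    intro x hx
    obtain ⟨y, hy, rfl⟩ := hξ
    have := hy x hx
    simp only [smul_dotProduct, smul_eq_mul]
    rw [dotProduct_comm]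
    nlinarith
  have hmass := hK.mass S ξ hS hn ha
  set V := (volume K).toReal with hV
  set V' := (volume (polc K)).toReal with hV'
  have hVpos : 0 < V := ENNReal.toReal_pos hK.vol_pos.ne' hK.vol_lt.ne
  have himg : ∀ A : Set (ι → ℝ), volume (S.mulVec '' A) = ENNReal.ofReal |S.det| * volume A := by
    intro A
    have := Measure.addHaar_image_linearMap (volume : Measure (ι → ℝ)) (Matrix.toLin' S) A
    rw [LinearMap.det_toLin'] at this
    exact this
  have himg' : ∀ A : Set (ι → ℝ), (volume (S.mulVec '' A)).toReal = |S.det| * (volume A).toReal := by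
    intro A
    rw [himg, ENNReal.toReal_mul, ENNReal.toReal_ofReal (abs_nonneg _)]
  refine ⟨S, hSd, ?_, ?_⟩
  · rw [himg']
    have h1 : (Hm K ξ).det * (n ^ n * V') ≤ V := by
      have h2 := ENNReal.toReal_mono hK.vol_lt.ne hvol
      rw [ENNReal.toReal_mul, ENNReal.toReal_ofReal hHd.le, Measure.addHaar_smul, ENNReal.toReal_mul,
        ENNReal.toReal_ofReal (abs_nonneg _), Module.finrank_pi, abs_of_pos (by positivity)] at h2
      exact h2
    have h2 : n ^ n * V' ≤ S.det ^ 2 * V := by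
      have h3 : S.det ^ 2 * ((Hm K ξ).det * (n ^ n * V')) ≤ S.det ^ 2 * V :=
        mul_le_mul_of_nonneg_left h1 (sq_nonneg _)
      have h4 : S.det ^ 2 * ((Hm K ξ).det * (n ^ n * V')) = n ^ n * V' := by
        rw [← mul_assoc, hdet, one_mul]
      linarith
    have h3 := hK.bm_real
    have h5 : (n.factorial : ℝ) ≤ n ^ n := by exact_mod_cast n.factorial_le_pow
    have hVV : 0 ≤ V * V' := by positivity
    have h6 : (Real.pi / 4) ^ n ≤ n ^ n * (V * V') := by
      rw [div_pow, div_le_iff₀ (by positivity)]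
      calc Real.pi ^ n ≤ 4 ^ n * n.factorial * (V * V') := h3
        _ ≤ 4 ^ n * n ^ n * (V * V') := by gcongr
        _ = _ := by ring
    calc (Real.pi / 4) ^ n ≤ n ^ n * (V * V') := h6
      _ = (n ^ n * V') * V := by ring
      _ ≤ (S.det ^ 2 * V) * V := mul_le_mul_of_nonneg_right h2 hVpos.le
      _ = (|S.det| * V) ^ 2 := by rw [mul_pow, sq_abs]; ring
  · -- mass in the centred ball
    set b := bar K ξ with hb
    set A : Set (ι → ℝ) := {x ∈ K | ∑ i, (S i ⬝ᵥ x - S i ⬝ᵥ b) ^ 2 ≤ 2 * n} with hA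
    have hApos : 0 < (volume A).toReal := by
      by_contra h
      have h0 : (volume A).toReal = 0 := le_antisymm (not_lt.1 h) ENNReal.toReal_nonneg
      rw [h0, mul_zero] at hmass
      linarith
    have hAne : A.Nonempty := by
      rw [Set.nonempty_iff_ne_empty]
      intro h
      rw [h] at hApos
      simp at hApos
    obtain ⟨x₀, hx₀⟩ := hAne
    have hsub : (1/2:ℝ) • (S.mulVec '' A + {-(S.mulVec x₀)}) ⊆ S.mulVec '' K ∩ {y | y ⬝ᵥ y ≤ 2 * n} := by
      rintro _ ⟨_, ⟨_, ⟨x, hx, rfl⟩, _, rfl, rfl⟩, rfl⟩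
      have e1 : (1/2:ℝ) • (S *ᵥ x + -(S *ᵥ x₀)) = S *ᵥ ((1/2:ℝ) • (x + -x₀)) := by
        rw [mulVec_smul, mulVec_add, mulVec_neg]
      refine ⟨⟨(1/2:ℝ) • (x + -x₀), hK.mid_mem hx.1 (hK.symm _ hx₀.1), e1.symm⟩, ?_⟩
      change ((1/2:ℝ) • (S *ᵥ x + -(S *ᵥ x₀))) ⬝ᵥ ((1/2:ℝ) • (S *ᵥ x + -(S *ᵥ x₀))) ≤ 2 * n
      have h1 := hx.2
      have h2 := hx₀.2
      have h3 : ((1/2:ℝ) • (S *ᵥ x + -(S *ᵥ x₀))) ⬝ᵥ ((1/2:ℝ) • (S *ᵥ x + -(S *ᵥ x₀))) =
          ∑ i, ((1/2) * ((S i ⬝ᵥ x - S i ⬝ᵥ b) - (S i ⬝ᵥ x₀ - S i ⬝ᵥ b))) ^ 2 := by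
        unfold dotProduct
        refine Finset.sum_congr rfl fun i _ => ?_
        simp only [Pi.smul_apply, Pi.add_apply, Pi.neg_apply, mulVec, smul_eq_mul]
        unfold dotProduct
        ring
      rw [h3]
      have h4 : ∑ i, ((1/2) * ((S i ⬝ᵥ x - S i ⬝ᵥ b) - (S i ⬝ᵥ x₀ - S i ⬝ᵥ b))) ^ 2 ≤
          ∑ i, ((1/2) * (S i ⬝ᵥ x - S i ⬝ᵥ b) ^ 2 + (1/2) * (S i ⬝ᵥ x₀ - S i ⬝ᵥ b) ^ 2) := by
        refine Finset.sum_le_sum fun i _ => ?_
        nlinarith [sq_nonneg ((S i ⬝ᵥ x - S i ⬝ᵥ b) + (S i ⬝ᵥ x₀ - S i ⬝ᵥ b))]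
      rw [Finset.sum_add_distrib, ← Finset.mul_sum, ← Finset.mul_sum] at h4
      linarith
    have hvol2 : (volume ((1/2:ℝ) • (S.mulVec '' A + {-(S.mulVec x₀)}))).toReal =
        (1/2) ^ n * (|S.det| * (volume A).toReal) := by
      rw [Measure.addHaar_smul, ENNReal.toReal_mul, ENNReal.toReal_ofReal (abs_nonneg _),
        Module.finrank_pi, abs_of_pos (by positivity), ← himg']
      congr 2
      have : S.mulVec '' A + {-(S.mulVec x₀)} = (fun y => y + -(S.mulVec x₀)) '' (S.mulVec '' A) := by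
        rw [Set.add_singleton]
      rw [this, Set.image_add_right, measure_preimage_add_right]
    have hfin : volume (S.mulVec '' K ∩ {y | y ⬝ᵥ y ≤ 2 * n}) ≠ ⊤ := by
      refine ((measure_mono Set.inter_subset_left).trans_lt ?_).ne
      rw [himg]
      exact ENNReal.mul_lt_top ENNReal.ofReal_lt_top hK.vol_lt
    have h5 := ENNReal.toReal_mono hfin (measure_mono (μ := volume) hsub)
    rw [hvol2] at h5
    rw [himg']
    have h6 : (2:ℝ) ^ n * (1/2) ^ n = 1 := by rw [← mul_pow]; norm_num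
    calc |S.det| * V ≤ |S.det| * (2 * Real.exp n * (volume A).toReal) :=
          mul_le_mul_of_nonneg_left hmass (abs_nonneg _)
      _ = 2 * Real.exp n * (2 ^ n * (1/2) ^ n) * (|S.det| * (volume A).toReal) := by rw [h6]; ring
      _ = 2 * Real.exp n * 2 ^ n * ((1/2) ^ n * (|S.det| * (volume A).toReal)) := by ring
      _ ≤ _ := mul_le_mul_of_nonneg_left h5 (by positivity)

end CB

end Pool.Agent.H845R2
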